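import Pool.Agent.Helper499.ArcArea

/-!
# Sharp integral means for the class Sigma, exponents 2, 4, 6
-/

set_option autoImplicit false
open Complex Set Filter Metric Topology MeasureTheory

namespace Pool.Agent.Results.MP_56f757_an.SharpMeans

open Pool.Agent.Helper499.Arc Pool.Agent.Helper499.ArcJ

/-- The class `Σ`: analytic and univalent in `1 < |z| < ∞`, with
`F z = z + ∑_{n ≥ 1} b_n z^{-n}` there. -/
def Sig (F : ℂ → ℂ) : Prop :=
  DifferentiableOn ℂ F {z | 1 < ‖z‖} ∧ InjOn F {z | 1 < ‖z‖} ∧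
    ∃ b : ℕ → ℂ, ∀ z : ℂ, 1 < ‖z‖ →
      HasSum (fun n : ℕ => b (n + 1) * z⁻¹ ^ (n + 1)) (F z - z)

/-- The integral mean `I_λ(r, g) = ((1/2π) ∫_0^{2π} |g(r e^{iθ})|^λ dθ)^{1/λ}`. -/
noncomputable def integralMean (lam r : ℝ) (g : ℂ → ℂ) : ℝ :=
  (1 / (2 * Real.pi) *
    ∫ θ in (0 : ℝ)..(2 * Real.pi), ‖g (r * Complex.exp (θ * I))‖ ^ lam) ^ (1 / lam)

/-- Parseval on the circle of radius `r > 1` for a power series in `1/z`. -/
theorem parseval_ext {κ : ℕ → ℂ} {K : ℂ → ℂ} (hK : PS κ K) {r : ℝ} (hr : 1 < r) :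
    HasSum (fun k => ‖κ k‖ ^ 2 * ((r⁻¹) ^ 2) ^ k)
      (1 / (2 * Real.pi) *
        ∫ θ in (0 : ℝ)..(2 * Real.pi), ‖K ((r * Complex.exp (θ * I))⁻¹)‖ ^ 2) := by
  have hr0 : 0 < r := by linarith
  have hρ0 : 0 < r⁻¹ := inv_pos.2 hr0
  have hρ1 : r⁻¹ < 1 := inv_lt_one_of_one_lt₀ hr
  obtain ⟨hs, -⟩ := parseval_summ κ K hK hρ0 hρ1
  set a : ℕ → ℂ := fun n => (starRingEnd ℂ) (κ n) * (r⁻¹ : ℝ) ^ n with ha
  have hna : ∀ n, ‖a n‖ = ‖κ n‖ * r⁻¹ ^ n := by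
    intro n
    simp only [ha, norm_mul, norm_pow, RCLike.norm_conj, Complex.norm_real, Real.norm_eq_abs,
      abs_of_pos hρ0]
  have hsa : Summable (fun n => ‖a n‖) := by simpa only [hna] using hs
  set A : ℝ → ℂ := fun t => (starRingEnd ℂ) (K ((r * Complex.exp (t * I))⁻¹)) with hA
  have hAs : ∀ t, HasSum (fun n : ℕ => a n * parsevalE n t) (A t) := by
    intro t
    have hn : ‖((r : ℂ) * Complex.exp (t * I))⁻¹‖ < 1 := by
      rw [norm_inv, norm_mul, Complex.norm_exp_ofReal_mul_I, Complex.norm_real, Real.norm_eq_abs,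
        abs_of_pos hr0, mul_one]
      exact hρ1
    have h1 := (hK _ hn).map (starRingEnd ℂ) Complex.continuous_conj
    refine (parseval_congr (fun n => ?_)).1 h1
    simp only [Function.comp_apply, map_mul, map_pow, ha, parsevalE]
    rw [mul_assoc]
    congr 1
    rw [mul_inv, map_mul, mul_pow]
    congr 1
    · rw [map_inv₀, Complex.conj_ofReal]; push_cast; rfl
    · rw [map_inv₀, ← Complex.exp_conj, ← Complex.exp_neg, ← Complex.exp_nat_mul]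
      congr 1
      simp only [map_mul, Complex.conj_ofReal, Complex.conj_I]
      push_cast
      ring
  have h := parseval_aux a a hsa hsa A A hAs hAs
  have h2 := h.mul_left ((2 * Real.pi : ℂ)⁻¹)
  have hpi : (2 * Real.pi : ℂ) ≠ 0 := by
    have := Real.pi_ne_zero
    exact_mod_cast mul_ne_zero two_ne_zero this
  have e1 : ∀ n, (2 * Real.pi : ℂ)⁻¹ * ((2 * Real.pi : ℂ) * ((starRingEnd ℂ) (a n) * a n)) =
      ((‖κ n‖ ^ 2 * ((r⁻¹) ^ 2) ^ n : ℝ) : ℂ) := by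
    intro n
    rw [← mul_assoc, inv_mul_cancel₀ hpi, one_mul, mul_comm, Complex.mul_conj,
      Complex.normSq_eq_norm_sq, hna]
    congr 1
    rw [mul_pow, ← pow_mul, ← pow_mul, mul_comm n 2]
  have e2 : (2 * Real.pi : ℂ)⁻¹ * ∫ t in (0 : ℝ)..(2 * Real.pi), (starRingEnd ℂ) (A t) * A t =
      ((1 / (2 * Real.pi) *
        ∫ θ in (0 : ℝ)..(2 * Real.pi), ‖K ((r * Complex.exp (θ * I))⁻¹)‖ ^ 2 : ℝ) : ℂ) := by
    push_cast
    rw [one_div]
    congr 1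
    rw [← intervalIntegral.integral_ofReal]
    congr 1
    funext t
    rw [mul_comm, Complex.mul_conj, Complex.normSq_eq_norm_sq]
    simp only [hA, RCLike.norm_conj]
  rw [e2] at h2
  have h3 := (parseval_congr e1).1 h2
  exact_mod_cast h3

/-- the function `h w = w F(1/w)` -/
noncomputable def hh (F : ℂ → ℂ) (w : ℂ) : ℂ := if w = 0 then 1 else w * F w⁻¹

/-- its coefficients -/
noncomputable def bt (b : ℕ → ℂ) (n : ℕ) : ℂ := if n = 0 then 1 else if n = 1 then 0 else b (n - 1)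

theorem hh_PS {F : ℂ → ℂ} {b : ℕ → ℂ} (hb : ∀ z : ℂ, 1 < ‖z‖ →
      HasSum (fun n : ℕ => b (n + 1) * z⁻¹ ^ (n + 1)) (F z - z)) : PS (bt b) (hh F) := by
  intro w hw
  by_cases h0 : w = 0
  · subst h0
    have h := hasSum_single (f := fun n => bt b n * (0 : ℂ) ^ n) 0 (by
      intro n hn
      simp [hn])
    simpa [hh, bt] using h
  · have hz : 1 < ‖w⁻¹‖ := by
      rw [norm_inv]
      exact (one_lt_inv₀ (norm_pos_iff.2 h0)).2 hw
    have h := (hb w⁻¹ hz).mul_left w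
    rw [← hasSum_nat_add_iff' 2]
    have e : w * (F w⁻¹ - w⁻¹) = hh F w - ∑ i ∈ Finset.range 2, bt b i * w ^ i := by
      simp only [hh, h0, if_false, Finset.sum_range_succ, Finset.sum_range_zero, bt]
      field_simp
      simp
    rw [← e]
    refine (parseval_congr (fun n => ?_)).1 h
    simp only [bt, inv_inv]
    rw [if_neg (by omega), if_neg (by omega)]
    have : n + 2 - 1 = n + 1 := by omega
    rw [this]
    ring

theorem hh_inv {F : ℂ → ℂ} {z : ℂ} (hz : 1 < ‖z‖) : F z = z * hh F z⁻¹ := by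
  have h0 : z ≠ 0 := by
    rintro rfl
    simp at hz
    linarith
  have h1 : z⁻¹ ≠ 0 := inv_ne_zero h0
  rw [hh, if_neg h1, inv_inv]
  field_simp

theorem hh_inj {F : ℂ → ℂ} (hF : InjOn F {z | 1 < ‖z‖}) :
    ∀ x y : ℂ, x ≠ 0 → y ≠ 0 → ‖x‖ < 1 → ‖y‖ < 1 → hh F x / x = hh F y / y → x = y := by
  intro x y hx hy hx1 hy1 h
  have h1 : hh F x / x = F x⁻¹ := by
    rw [hh, if_neg hx]
    field_simp
  have h2 : hh F y / y = F y⁻¹ := by
    rw [hh, if_neg hy]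
    field_simp
  rw [h1, h2] at h
  have h3 : x⁻¹ = y⁻¹ := by
    refine hF ?_ ?_ h
    · show 1 < ‖x⁻¹‖
      rw [norm_inv]
      exact (one_lt_inv₀ (norm_pos_iff.2 hx)).2 hx1
    · show 1 < ‖y⁻¹‖
      rw [norm_inv]
      exact (one_lt_inv₀ (norm_pos_iff.2 hy)).2 hy1
  exact inv_injective h3

theorem hh_zero (F : ℂ → ℂ) : hh F 0 ≠ 0 := by simp [hh]

/-- the area inequality for the `m`-th power -/
theorem area_pow {F : ℂ → ℂ} {b : ℕ → ℂ} (hF : InjOn F {z | 1 < ‖z‖})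
    (hb : ∀ z : ℂ, 1 < ‖z‖ → HasSum (fun n : ℕ => b (n + 1) * z⁻¹ ^ (n + 1)) (F z - z))
    (m : ℕ) {κ : ℕ → ℂ} (hκ : PS κ (fun w => hh F w ^ m)) (N : ℕ) (hN : m ≤ N) :
    ∑ k ∈ Finset.range N, ((k : ℝ) - m) * ‖κ k‖ ^ 2 ≤ 0 := by
  refine area_poly (hh F) (hh_PS hb).differentiableOn (hh_zero F) (hh_inj hF) (Polynomial.X ^ m) m κ
    (fun w => hh F w ^ m) hκ ?_ N hN
  intro w _ _
  simp [div_pow]

/-- summing the tail with the area inequality -/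
theorem tail_bound (a : ℕ → ℝ) (ha : ∀ k, 0 ≤ a k) {x : ℝ} (hx0 : 0 < x) (hx1 : x < 1) (m : ℕ)
    (hm : 1 ≤ m) (hA : ∀ N, m ≤ N → ∑ k ∈ Finset.range N, ((k : ℝ) - m) * a k ≤ 0) {S : ℝ}
    (hS : HasSum (fun k => a k * x ^ k) S) :
    S ≤ ∑ k ∈ Finset.range (2 * m), a k * (x ^ k - x ^ (2 * m) / m * ((k : ℝ) - m)) := by
  have hm0 : (0 : ℝ) < m := by exact_mod_cast hm
  refine le_of_tendsto hS.tendsto_sum_nat ?_
  filter_upwards [eventually_ge_atTop (2 * m)] with N hN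
  have h1 : ∑ k ∈ Finset.range N, a k * (x ^ k - x ^ (2 * m) / m * ((k : ℝ) - m)) ≤
      ∑ k ∈ Finset.range (2 * m), a k * (x ^ k - x ^ (2 * m) / m * ((k : ℝ) - m)) := by
    induction N, hN using Nat.le_induction with
    | base => exact le_rfl
    | succ N hN ih =>
      rw [Finset.sum_range_succ]
      have h2 : x ^ N ≤ x ^ (2 * m) := pow_le_pow_of_le_one hx0.le hx1.le hN
      have h3 : (m : ℝ) ≤ (N : ℝ) - m := by
        have : ((2 * m : ℕ) : ℝ) ≤ N := by exact_mod_cast hN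
        push_cast at this
        linarith
      have h4 : x ^ (2 * m) ≤ x ^ (2 * m) / m * ((N : ℝ) - m) := by
        rw [div_mul_eq_mul_div, le_div_iff₀ hm0]
        exact mul_le_mul_of_nonneg_left h3 (by positivity)
      have h5 : a N * (x ^ N - x ^ (2 * m) / m * ((N : ℝ) - m)) ≤ 0 :=
        mul_nonpos_of_nonneg_of_nonpos (ha N) (by linarith)
      linarith
  have h2 := hA N (by omega)
  have h3 : ∑ k ∈ Finset.range N, a k * x ^ k =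
      ∑ k ∈ Finset.range N, a k * (x ^ k - x ^ (2 * m) / m * ((k : ℝ) - m)) +
        x ^ (2 * m) / m * ∑ k ∈ Finset.range N, ((k : ℝ) - m) * a k := by
    rw [Finset.mul_sum, ← Finset.sum_add_distrib]
    refine Finset.sum_congr rfl fun k _ => ?_
    ring
  have h4 : x ^ (2 * m) / m * ∑ k ∈ Finset.range N, ((k : ℝ) - m) * a k ≤ 0 :=
    mul_nonpos_of_nonneg_of_nonpos (by positivity) h2
  linarith

/-- even means in terms of the coefficients of the `m`-th power -/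
theorem mean_even {F : ℂ → ℂ} (m : ℕ) {lam : ℝ} (hl : lam = ((2 * m : ℕ) : ℝ))
    {κ : ℕ → ℂ} (hκ : PS κ (fun w => hh F w ^ m)) {r : ℝ} (hr : 1 < r) {S : ℝ}
    (hS : HasSum (fun k => ‖κ k‖ ^ 2 * ((r⁻¹) ^ 2) ^ k) S) :
    integralMean lam r F = (r ^ (2 * m) * S) ^ (1 / lam) := by
  have hr0 : 0 < r := by linarith
  have h1 := (parseval_ext hκ hr).unique hS
  rw [integralMean]
  congr 1
  rw [← h1]
  have h2 : ∀ θ : ℝ, ‖F (r * Complex.exp (θ * I))‖ ^ lam =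
      r ^ (2 * m) * ‖hh F ((r * Complex.exp (θ * I))⁻¹) ^ m‖ ^ 2 := by
    intro θ
    have hn : ‖(r : ℂ) * Complex.exp (θ * I)‖ = r := by
      rw [norm_mul, Complex.norm_exp_ofReal_mul_I, Complex.norm_real, Real.norm_eq_abs,
        abs_of_pos hr0, mul_one]
    rw [hl, Real.rpow_natCast, hh_inv (F := F) (z := r * Complex.exp (θ * I)) (by rw [hn]; exact hr),
      norm_mul, mul_pow, hn, norm_pow, ← pow_mul, mul_comm m 2]
  simp only [h2]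
  rw [intervalIntegral.integral_const_mul]
  ring

theorem sum_nonneg' {κ : ℕ → ℂ} {x S : ℝ} (hx : 0 ≤ x)
    (hS : HasSum (fun k => ‖κ k‖ ^ 2 * x ^ k) S) : 0 ≤ S :=
  hS.nonneg (fun k => by positivity)

theorem PS1 {F : ℂ → ℂ} {β : ℕ → ℂ} (h : PS β (hh F)) : PS β (fun w => hh F w ^ 1) :=
  h.congr (fun z _ => by simp)

theorem PS2 {F : ℂ → ℂ} {β : ℕ → ℂ} (h : PS β (hh F)) : PS (cv β β) (fun w => hh F w ^ 2) :=
  (h.mul h).congr (fun z _ => by ring)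

theorem PS3 {F : ℂ → ℂ} {β : ℕ → ℂ} (h : PS β (hh F)) :
    PS (cv β (cv β β)) (fun w => hh F w ^ 3) :=
  (h.mul (h.mul h)).congr (fun z _ => by ring)

section coeffs
variable {F : ℂ → ℂ} {b : ℕ → ℂ} (hF : InjOn F {z | 1 < ‖z‖})
    (hb : ∀ z : ℂ, 1 < ‖z‖ → HasSum (fun n : ℕ => b (n + 1) * z⁻¹ ^ (n + 1)) (F z - z))

include hF hb in
theorem area_one : ‖b 1‖ ^ 2 + 2 * ‖b 2‖ ^ 2 + 3 * ‖b 3‖ ^ 2 + 4 * ‖b 4‖ ^ 2 ≤ 1 := by
  have h := area_pow hF hb 1 (PS1 (hh_PS hb)) 6 (by norm_num)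
  simp only [Finset.sum_range_succ, Finset.sum_range_zero, bt] at h
  norm_num at h
  linarith

include hF hb in
theorem area_two : ‖2 * b 3 + b 1 ^ 2‖ ≤ 1 := by
  have h := area_pow hF hb 2 (PS2 (hh_PS hb)) 5 (by norm_num)
  simp only [Finset.sum_range_succ, Finset.sum_range_zero, bt, cv] at h
  norm_num at h
  have e : b 3 + b 1 * b 1 + b 3 = 2 * b 3 + b 1 ^ 2 := by ring
  rw [e] at h
  have h2 : (0 : ℝ) ≤ ‖b 2 + b 2‖ ^ 2 := by positivity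
  have h3 : ‖2 * b 3 + b 1 ^ 2‖ ^ 2 ≤ 1 := by nlinarith
  nlinarith [norm_nonneg (2 * b 3 + b 1 ^ 2)]

include hF hb in
theorem bound1 {x : ℝ} (hx0 : 0 < x) (hx1 : x < 1) {S : ℝ}
    (hS : HasSum (fun k => ‖bt b k‖ ^ 2 * x ^ k) S) : S ≤ 1 + x ^ 2 := by
  have h := tail_bound (fun k => ‖bt b k‖ ^ 2) (fun k => by positivity) hx0 hx1 1 le_rfl
    (fun N hN => area_pow hF hb 1 (PS1 (hh_PS hb)) N hN) hS
  simp only [Finset.sum_range_succ, Finset.sum_range_zero, bt, mul_one] at h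
  norm_num at h
  linarith

include hF hb in
theorem bound2 {x : ℝ} (hx0 : 0 < x) (hx1 : x < 1) {S : ℝ}
    (hS : HasSum (fun k => ‖cv (bt b) (bt b) k‖ ^ 2 * x ^ k) S) : S ≤ 1 + 4 * x ^ 2 + x ^ 4 := by
  have h := tail_bound (fun k => ‖cv (bt b) (bt b) k‖ ^ 2) (fun k => by positivity) hx0 hx1 2
    (by norm_num) (fun N hN => area_pow hF hb 2 (PS2 (hh_PS hb)) N hN) hS
  simp only [Finset.sum_range_succ, Finset.sum_range_zero, bt, cv] at h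
  norm_num at h
  have e2 : ‖b 1 + b 1‖ = 2 * ‖b 1‖ := by
    rw [← two_mul, norm_mul]; norm_num
  have e3 : ‖b 2 + b 2‖ = 2 * ‖b 2‖ := by
    rw [← two_mul, norm_mul]; norm_num
  rw [e2, e3] at h
  have ha := area_one hF hb
  have hp := norm_nonneg (b 3)
  have hq := norm_nonneg (b 4)
  have hx2 : 0 < x ^ 2 := by positivity
  have hx3 : 0 < x ^ 3 := by positivity
  have hx4 : 0 < x ^ 4 := by positivity
  have h32 : x ^ 3 ≤ x ^ 2 := by nlinarith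
  have h1 : 2 * ‖b 2‖ ^ 2 ≤ 1 - ‖b 1‖ ^ 2 := by nlinarith
  have h2 : 4 * ‖b 2‖ ^ 2 * x ^ 3 ≤ 2 * (1 - ‖b 1‖ ^ 2) * x ^ 3 := by nlinarith
  have h3 : 2 * (1 - ‖b 1‖ ^ 2) * x ^ 3 ≤ 4 * (1 - ‖b 1‖ ^ 2) * x ^ 2 := by
    have : 0 ≤ 1 - ‖b 1‖ ^ 2 := by nlinarith [sq_nonneg ‖b 2‖]
    nlinarith
  nlinarith [sq_nonneg ‖b 2‖, mul_nonneg (sq_nonneg ‖b 2‖) hx4.le]

include hF hb in
theorem bound3 {x : ℝ} (hx0 : 0 < x) (hx1 : x < 1) {S : ℝ}
    (hS : HasSum (fun k => ‖cv (bt b) (cv (bt b) (bt b)) k‖ ^ 2 * x ^ k) S) :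
    S ≤ 1 + 9 * x ^ 2 + 9 * x ^ 4 + x ^ 6 := by
  have h := tail_bound (fun k => ‖cv (bt b) (cv (bt b) (bt b)) k‖ ^ 2) (fun k => by positivity)
    hx0 hx1 3 (by norm_num) (fun N hN => area_pow hF hb 3 (PS3 (hh_PS hb)) N hN) hS
  simp only [Finset.sum_range_succ, Finset.sum_range_zero, bt, cv] at h
  norm_num at h
  have ha := area_one hF hb
  have ha2 := area_two hF hb
  have e2 : ‖b 1 + b 1 + b 1‖ = 3 * ‖b 1‖ := by
    rw [show b 1 + b 1 + b 1 = 3 * b 1 by ring, norm_mul]; norm_num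
  have e3 : ‖b 2 + b 2 + b 2‖ = 3 * ‖b 2‖ := by
    rw [show b 2 + b 2 + b 2 = 3 * b 2 by ring, norm_mul]; norm_num
  have hp1 : ‖b 1‖ ≤ 1 := by
    nlinarith [norm_nonneg (b 1), sq_nonneg ‖b 2‖, sq_nonneg ‖b 3‖, sq_nonneg ‖b 4‖]
  have hp2 : ‖b 1‖ ^ 2 ≤ 1 := by nlinarith [norm_nonneg (b 1)]
  have hu : ‖b 3 + b 1 * b 1 + b 3 + b 1 * (b 1 + b 1) + b 3‖ ≤ 3 := by
    have e : b 3 + b 1 * b 1 + b 3 + b 1 * (b 1 + b 1) + b 3 =
        (3 / 2 : ℂ) * (2 * b 3 + b 1 ^ 2) + (3 / 2 : ℂ) * b 1 ^ 2 := by ring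
    rw [e]
    refine (norm_add_le _ _).trans ?_
    rw [norm_mul, norm_mul, norm_pow]
    have : ‖(3 / 2 : ℂ)‖ = 3 / 2 := by norm_num
    rw [this]
    linarith
  have hv : ‖b 4 + b 1 * b 2 + b 2 * b 1 + b 4 + b 1 * (b 2 + b 2) + b 2 * (b 1 + b 1) + b 4‖ ≤
      3 * ‖b 4‖ + 6 * ‖b 2‖ := by
    have e : b 4 + b 1 * b 2 + b 2 * b 1 + b 4 + b 1 * (b 2 + b 2) + b 2 * (b 1 + b 1) + b 4 =
        3 * b 4 + 6 * (b 1 * b 2) := by ring
    rw [e]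
    refine (norm_add_le _ _).trans ?_
    rw [norm_mul, norm_mul, norm_mul]
    have h3 : ‖(3 : ℂ)‖ = 3 := by norm_num
    have h6 : ‖(6 : ℂ)‖ = 6 := by norm_num
    rw [h3, h6]
    have : ‖b 1‖ * ‖b 2‖ ≤ ‖b 2‖ := by nlinarith [norm_nonneg (b 2)]
    linarith
  rw [e2, e3] at h
  set u := ‖b 3 + b 1 * b 1 + b 3 + b 1 * (b 1 + b 1) + b 3‖ with hudef
  set v := ‖b 4 + b 1 * b 2 + b 2 * b 1 + b 4 + b 1 * (b 2 + b 2) + b 2 * (b 1 + b 1) + b 4‖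
    with hvdef
  have hu0 : 0 ≤ u := norm_nonneg _
  have hv0 : 0 ≤ v := norm_nonneg _
  clear_value u v
  set p := ‖b 1‖
  set q := ‖b 2‖
  set t := ‖b 4‖
  have hq0 : 0 ≤ q := norm_nonneg _
  have ht0 : 0 ≤ t := norm_nonneg _
  have hδ : 2 * q ^ 2 + 4 * t ^ 2 ≤ 1 - p ^ 2 := by nlinarith [sq_nonneg ‖b 3‖]
  have hδ0 : 0 ≤ 1 - p ^ 2 := by linarith
  have hu2 : u ^ 2 ≤ 9 := by nlinarith
  have hv2 : v ^ 2 ≤ 81 / 4 * (1 - p ^ 2) := by
    have h1 : v ^ 2 ≤ (3 * t + 6 * q) ^ 2 := by gcongr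
    nlinarith [sq_nonneg (4 * t - q)]
  have hx3 : 0 < x ^ 3 := by positivity
  have hx64 : x ^ 6 ≤ x ^ 4 := pow_le_pow_of_le_one hx0.le hx1.le (by norm_num)
  have hx65 : x ^ 6 ≤ x ^ 5 := pow_le_pow_of_le_one hx0.le hx1.le (by norm_num)
  have hx6 : 0 < x ^ 6 := by positivity
  have k1 : u ^ 2 * (x ^ 4 - x ^ 6 / 3) ≤ 9 * (x ^ 4 - x ^ 6 / 3) :=
    mul_le_mul_of_nonneg_right hu2 (by linarith)
  have k2 : v ^ 2 * (x ^ 5 - x ^ 6 / 3 * 2) ≤ 81 / 4 * (1 - p ^ 2) * (x ^ 5 - x ^ 6 / 3 * 2) :=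
    mul_le_mul_of_nonneg_right hv2 (by linarith)
  have k3 : (3 * q) ^ 2 * x ^ 3 ≤ 9 / 2 * (1 - p ^ 2) * x ^ 3 :=
    mul_le_mul_of_nonneg_right (by nlinarith [sq_nonneg t]) hx3.le
  have hpoly : -9 + 9 / 2 * x + 81 / 4 * x ^ 3 - 33 / 2 * x ^ 4 ≤ 0 := by
    have a1 : 0 ≤ 3 * x ^ 4 - 4 * x ^ 3 + 1 := by
      rw [show 3 * x ^ 4 - 4 * x ^ 3 + 1 = (x - 1) ^ 2 * (3 * x ^ 2 + 2 * x + 1) by ring]
      positivity
    have a2 : 0 ≤ x ^ 4 - 4 * x + 3 := by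
      rw [show x ^ 4 - 4 * x + 3 = (x - 1) ^ 2 * (x ^ 2 + 2 * x + 3) by ring]
      positivity
    linarith
  have k4 : (1 - p ^ 2) * (x ^ 2 * (-9 + 9 / 2 * x + 81 / 4 * x ^ 3 - 33 / 2 * x ^ 4)) ≤ 0 :=
    mul_nonpos_of_nonneg_of_nonpos hδ0 (mul_nonpos_of_nonneg_of_nonpos (by positivity) hpoly)
  have k5 : 1 + x ^ 6 + (3 * p) ^ 2 * (x ^ 2 + x ^ 6 / 3) + 9 / 2 * (1 - p ^ 2) * x ^ 3 +
      9 * (x ^ 4 - x ^ 6 / 3) + 81 / 4 * (1 - p ^ 2) * (x ^ 5 - x ^ 6 / 3 * 2) =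
      1 + 9 * x ^ 2 + 9 * x ^ 4 + x ^ 6 +
      (1 - p ^ 2) * (x ^ 2 * (-9 + 9 / 2 * x + 81 / 4 * x ^ 3 - 33 / 2 * x ^ 4)) := by ring
  linarith only [k1, k2, k3, k4, k5, h]

end coeffs

/-- the means of the derivative -/
theorem mean_deriv {F : ℂ → ℂ} {b : ℕ → ℂ}
    (hb : ∀ z : ℂ, 1 < ‖z‖ → HasSum (fun n : ℕ => b (n + 1) * z⁻¹ ^ (n + 1)) (F z - z))
    {r : ℝ} (hr : 1 < r) :
    ∃ S, HasSum (fun k : ℕ => ((k : ℝ) - 1) ^ 2 * ‖bt b k‖ ^ 2 * ((r⁻¹) ^ 2) ^ k) S ∧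
      integralMean 2 r (deriv F) = S ^ ((1 : ℝ) / 2) := by
  have hr0 : 0 < r := by linarith
  set K : ℂ → ℂ := fun w => hh F w - w * deriv (hh F) w with hKdef
  have hPS := hh_PS hb
  have hK : PS (fun k => bt b k - (k : ℂ) * bt b k) K := by
    intro z hz
    obtain ⟨K', h1, h2⟩ := parseval_deriv (bt b) (hh F) hPS hz
    have h3 := (hPS z hz).sub h2
    rw [← h1.deriv] at h3
    refine (parseval_congr (fun n => ?_)).1 h3
    ring
  have hder : ∀ z : ℂ, 1 < ‖z‖ → deriv F z = K z⁻¹ := by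
    intro z hz
    have hz0 : z ≠ 0 := by
      rintro rfl
      simp at hz
      linarith
    have hzi : ‖z⁻¹‖ < 1 := by
      rw [norm_inv]
      exact inv_lt_one_of_one_lt₀ hz
    obtain ⟨K', h1, h2⟩ := parseval_deriv (bt b) (hh F) hPS hzi
    have h3 : HasDerivAt (fun z => z * hh F z⁻¹)
        (1 * hh F z⁻¹ + z * (K' * (-(z ^ 2)⁻¹))) z :=
      (hasDerivAt_id z).mul (HasDerivAt.comp z h1 (hasDerivAt_inv hz0))
    have h4 : F =ᶠ[𝓝 z] fun z => z * hh F z⁻¹ := by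
      have : {z : ℂ | 1 < ‖z‖} ∈ 𝓝 z :=
        (isOpen_lt continuous_const continuous_norm).mem_nhds hz
      filter_upwards [this] with w hw
      exact hh_inv hw
    rw [h4.deriv_eq, h3.deriv, hKdef]
    simp only
    rw [h1.deriv]
    field_simp
    ring
  refine ⟨1 / (2 * Real.pi) *
        ∫ θ in (0 : ℝ)..(2 * Real.pi), ‖K ((r * Complex.exp (θ * I))⁻¹)‖ ^ 2, ?_, ?_⟩
  · have h := parseval_ext hK hr
    convert h using 2 with k
    congr 1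
    rw [show bt b k - (k : ℂ) * bt b k = ((-((k : ℝ) - 1) : ℝ) : ℂ) * bt b k by push_cast; ring,
      norm_mul, mul_pow, Complex.norm_real, Real.norm_eq_abs, sq_abs]
    ring
  · rw [integralMean]
    congr 1
    congr 1
    congr 1
    funext θ
    have hn : ‖(r : ℂ) * Complex.exp (θ * I)‖ = r := by
      rw [norm_mul, Complex.norm_exp_ofReal_mul_I, Complex.norm_real, Real.norm_eq_abs,
        abs_of_pos hr0, mul_one]
    rw [hder _ (by rw [hn]; exact hr)]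
    norm_cast

theorem bound_deriv {F : ℂ → ℂ} {b : ℕ → ℂ} (hF : InjOn F {z | 1 < ‖z‖})
    (hb : ∀ z : ℂ, 1 < ‖z‖ → HasSum (fun n : ℕ => b (n + 1) * z⁻¹ ^ (n + 1)) (F z - z))
    {x : ℝ} (hx0 : 0 < x) (hx1 : x ≤ 1 / 2) {S : ℝ}
    (hS : HasSum (fun k : ℕ => ((k : ℝ) - 1) ^ 2 * ‖bt b k‖ ^ 2 * x ^ k) S) :
    S ≤ 1 + x ^ 2 := by
  have hA := area_pow hF hb 1 (PS1 (hh_PS hb))
  refine le_of_tendsto hS.tendsto_sum_nat ?_
  filter_upwards [eventually_ge_atTop 2] with N hN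
  have h1 : ∑ k ∈ Finset.range N, (((k : ℝ) - 1) ^ 2 * ‖bt b k‖ ^ 2 * x ^ k -
      x ^ 2 * (((k : ℝ) - 1) * ‖bt b k‖ ^ 2)) ≤ 1 + x ^ 2 := by
    induction N, hN using Nat.le_induction with
    | base =>
      simp only [Finset.sum_range_succ, Finset.sum_range_zero, bt]
      norm_num
    | succ N hN ih =>
      rw [Finset.sum_range_succ]
      obtain ⟨n, rfl⟩ : ∃ n, N = n + 2 := ⟨N - 2, by omega⟩
      have h2 : ((n : ℝ) + 1) * x ^ n ≤ 1 := by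
        have h3 : x ^ n ≤ (1 / 2) ^ n := by gcongr
        have h4 : ((n : ℝ) + 1) ≤ 2 ^ n := by
          have : n + 1 ≤ 2 ^ n := Nat.lt_two_pow_self
          exact_mod_cast this
        calc ((n : ℝ) + 1) * x ^ n ≤ 2 ^ n * (1 / 2) ^ n := by gcongr
          _ = 1 := by rw [← mul_pow]; norm_num
      have h3 : (((n + 2 : ℕ) : ℝ) - 1) ^ 2 * ‖bt b (n + 2)‖ ^ 2 * x ^ (n + 2) -
          x ^ 2 * ((((n + 2 : ℕ) : ℝ) - 1) * ‖bt b (n + 2)‖ ^ 2) =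
          x ^ 2 * ((n : ℝ) + 1) * ‖bt b (n + 2)‖ ^ 2 * (((n : ℝ) + 1) * x ^ n - 1) := by
        push_cast
        ring
      rw [h3]
      have h4 : x ^ 2 * ((n : ℝ) + 1) * ‖bt b (n + 2)‖ ^ 2 * (((n : ℝ) + 1) * x ^ n - 1) ≤ 0 :=
        mul_nonpos_of_nonneg_of_nonpos (by positivity) (by linarith)
      linarith
  have h2 := hA N (by omega)
  have h3 : ∑ k ∈ Finset.range N, ((k : ℝ) - 1) ^ 2 * ‖bt b k‖ ^ 2 * x ^ k =
      ∑ k ∈ Finset.range N, (((k : ℝ) - 1) ^ 2 * ‖bt b k‖ ^ 2 * x ^ k -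
      x ^ 2 * (((k : ℝ) - 1) * ‖bt b k‖ ^ 2)) +
        x ^ 2 * ∑ k ∈ Finset.range N, ((k : ℝ) - ((1 : ℕ) : ℝ)) * ‖bt b k‖ ^ 2 := by
    rw [Finset.mul_sum, ← Finset.sum_add_distrib]
    refine Finset.sum_congr rfl fun k _ => ?_
    push_cast
    ring
  have h4 : x ^ 2 * ∑ k ∈ Finset.range N, ((k : ℝ) - ((1 : ℕ) : ℝ)) * ‖bt b k‖ ^ 2 ≤ 0 :=
    mul_nonpos_of_nonneg_of_nonpos (by positivity) h2
  linarith

/-- complements of circular arcs -/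
noncomputable def arc (t : ℝ) (z : ℂ) : ℂ := z + (1 - (t : ℂ) ^ 2) / (z + I * t)

/-- its coefficients -/
noncomputable def arcb (t : ℝ) (n : ℕ) : ℂ := (1 - (t : ℂ) ^ 2) * (-(I * t)) ^ (n - 1)

theorem arc_ne {t : ℝ} (h0 : 0 ≤ t) (h1 : t < 1) {z : ℂ} (hz : 1 < ‖z‖) : z + I * t ≠ 0 := by
  intro h
  have : z = -(I * t) := by linear_combination h
  rw [this, norm_neg, norm_mul, norm_I, one_mul, Complex.norm_real, Real.norm_eq_abs,
    abs_of_nonneg h0] at hz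
  linarith

theorem arc_series {t : ℝ} (h0 : 0 ≤ t) (h1 : t < 1) (z : ℂ) (hz : 1 < ‖z‖) :
    HasSum (fun n : ℕ => arcb t (n + 1) * z⁻¹ ^ (n + 1)) (arc t z - z) := by
  have hz0 : z ≠ 0 := by
    rintro rfl
    simp at hz
    linarith
  have hne := arc_ne h0 h1 hz
  have hr : ‖-(I * t) * z⁻¹‖ < 1 := by
    rw [norm_mul, norm_neg, norm_mul, norm_I, one_mul, Complex.norm_real, Real.norm_eq_abs,
      abs_of_nonneg h0, norm_inv]
    rw [← div_eq_mul_inv, div_lt_one (by linarith)]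
    linarith
  have h := (hasSum_geometric_of_norm_lt_one hr).mul_left ((1 - (t : ℂ) ^ 2) * z⁻¹)
  have e : (1 - (t : ℂ) ^ 2) * z⁻¹ * (1 - -(I * t) * z⁻¹)⁻¹ = arc t z - z := by
    rw [arc]
    have : 1 - -(I * t) * z⁻¹ = (z + I * t) / z := by field_simp; ring
    rw [this]
    field_simp
    ring
  rw [e] at h
  refine (parseval_congr (fun n => ?_)).1 h
  rw [arcb, Nat.add_sub_cancel, mul_pow]
  ring

theorem arc_inj {t : ℝ} (h0 : 0 ≤ t) (h1 : t < 1) : InjOn (arc t) {z | 1 < ‖z‖} := by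
  intro z hz w hw h
  have hz' : 1 < ‖z‖ := hz
  have hw' : 1 < ‖w‖ := hw
  have nz := arc_ne h0 h1 hz'
  have nw := arc_ne h0 h1 hw'
  by_contra hne
  have hsub : z - w ≠ 0 := sub_ne_zero.2 hne
  have h2 : (z - w) * ((z + I * t) * (w + I * t) - (1 - (t : ℂ) ^ 2)) = 0 := by
    unfold arc at h
    have h3 : z + (1 - (t : ℂ) ^ 2) / (z + I * t) - (w + (1 - (t : ℂ) ^ 2) / (w + I * t)) = 0 :=
      sub_eq_zero.2 h
    have h4 : (z + (1 - (t : ℂ) ^ 2) / (z + I * t) - (w + (1 - (t : ℂ) ^ 2) / (w + I * t))) *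
        ((z + I * t) * (w + I * t)) = (z - w) * ((z + I * t) * (w + I * t) - (1 - (t : ℂ) ^ 2)) := by
      have key : ∀ u v c z w : ℂ, u ≠ 0 → v ≠ 0 → z = w + (u - v) →
          (z + c / u - (w + c / v)) * (u * v) = (z - w) * (u * v - c) := by
        intro u v c z w hu hv hz
        subst hz
        field_simp
        ring
      exact key _ _ _ _ _ nz nw (by ring)
    rw [← h4, h3, zero_mul]
  have h3 : (z + I * t) * (w + I * t) = 1 - (t : ℂ) ^ 2 := by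
    rcases mul_eq_zero.1 h2 with h | h
    · exact absurd h hsub
    · linear_combination h
  -- z = (1 - t²)/(w + it) - it
  have hzw : z * (w + I * t) = 1 - I * t * w := by
    have : (I : ℂ) ^ 2 = -1 := I_sq
    linear_combination h3 - (t : ℂ) ^ 2 * this
  have hn := congrArg Complex.normSq hzw
  rw [Complex.normSq_mul] at hn
  have hz1 : 1 < Complex.normSq z := by
    rw [Complex.normSq_eq_norm_sq]; nlinarith
  have hw1 : 1 < Complex.normSq w := by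
    rw [Complex.normSq_eq_norm_sq]; nlinarith
  have hpos : 0 < Complex.normSq (w + I * t) := Complex.normSq_pos.2 nw
  have e1 : Complex.normSq (w + I * t) = Complex.normSq w + 2 * t * w.im + t ^ 2 := by
    simp only [Complex.normSq_apply, Complex.add_re, Complex.add_im, Complex.mul_re,
      Complex.mul_im, Complex.I_re, Complex.I_im, Complex.ofReal_re, Complex.ofReal_im]
    ring
  have e2 : Complex.normSq (1 - I * t * w) = 1 + 2 * t * w.im + t ^ 2 * Complex.normSq w := by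
    simp only [Complex.normSq_apply, Complex.sub_re, Complex.sub_im, Complex.mul_re,
      Complex.mul_im, Complex.I_re, Complex.I_im, Complex.ofReal_re, Complex.ofReal_im,
      Complex.one_re, Complex.one_im]
    ring
  have h5 : Complex.normSq (w + I * t) < Complex.normSq (1 - I * t * w) := by
    rw [← hn]
    nlinarith
  rw [e1, e2] at h5
  have : 0 < 1 - t ^ 2 := by nlinarith
  nlinarith

theorem arc_sig {t : ℝ} (h0 : 0 ≤ t) (h1 : t < 1) : Sig (arc t) := by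
  refine ⟨?_, arc_inj h0 h1, arcb t, arc_series h0 h1⟩
  intro z hz
  have := arc_ne h0 h1 hz
  apply DifferentiableAt.differentiableWithinAt
  unfold arc
  fun_prop (disch := assumption)

theorem xr {r : ℝ} (hr : 1 < r) : 0 < (r⁻¹) ^ 2 ∧ (r⁻¹) ^ 2 < 1 := by
  have hr0 : 0 < r := by linarith
  have h1 : r⁻¹ < 1 := inv_lt_one_of_one_lt₀ hr
  have h2 : 0 < r⁻¹ := inv_pos.2 hr0
  exact ⟨by positivity, by nlinarith⟩

theorem summable_ext {κ : ℕ → ℂ} {K : ℂ → ℂ} (hK : PS κ K) {r : ℝ} (hr : 1 < r) :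
    ∃ S, HasSum (fun k => ‖κ k‖ ^ 2 * ((r⁻¹) ^ 2) ^ k) S := ⟨_, parseval_ext hK hr⟩

theorem lower1 {x S : ℝ} (hx : 0 < x)
    (hS : HasSum (fun k => ‖bt (arcb 0) k‖ ^ 2 * x ^ k) S) : 1 + x ^ 2 ≤ S := by
  have h := sum_le_hasSum (Finset.range 3) (fun k _ => by positivity) hS
  simp only [Finset.sum_range_succ, Finset.sum_range_zero, bt, arcb] at h
  norm_num at h
  linarith

theorem lower2 {x S : ℝ} (hx : 0 < x)
    (hS : HasSum (fun k => ‖cv (bt (arcb 0)) (bt (arcb 0)) k‖ ^ 2 * x ^ k) S) :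
    1 + 4 * x ^ 2 + x ^ 4 ≤ S := by
  have h := sum_le_hasSum (Finset.range 5) (fun k _ => by positivity) hS
  simp only [Finset.sum_range_succ, Finset.sum_range_zero, bt, arcb, cv] at h
  norm_num at h
  linarith

theorem lower3 {x S : ℝ} (hx : 0 < x)
    (hS : HasSum (fun k => ‖cv (bt (arcb 0)) (cv (bt (arcb 0)) (bt (arcb 0))) k‖ ^ 2 * x ^ k) S) :
    1 + 9 * x ^ 2 + 9 * x ^ 4 + x ^ 6 ≤ S := by
  have h := sum_le_hasSum (Finset.range 7) (fun k _ => by positivity) hS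
  simp only [Finset.sum_range_succ, Finset.sum_range_zero, bt, arcb, cv] at h
  norm_num at h
  linarith

theorem lower_deriv {t x S : ℝ} (h0 : 0 ≤ t) (h1 : t < 1) (hx : 0 < x)
    (hS : HasSum (fun k : ℕ => ((k : ℝ) - 1) ^ 2 * ‖bt (arcb t) k‖ ^ 2 * x ^ k) S) :
    1 + (1 - t ^ 2) ^ 2 * x ^ 2 + 4 * ((1 - t ^ 2) ^ 2 * t ^ 2) * x ^ 3 ≤ S := by
  have h := sum_le_hasSum (Finset.range 4) (fun k _ => by positivity) hS
  have e : ‖(1 : ℂ) - (t : ℂ) ^ 2‖ = 1 - t ^ 2 := by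
    rw [show (1 : ℂ) - (t : ℂ) ^ 2 = ((1 - t ^ 2 : ℝ) : ℂ) by push_cast; ring, Complex.norm_real,
      Real.norm_eq_abs, abs_of_pos (by nlinarith)]
  have e2 : ‖(-(I * (t : ℂ)))‖ = t := by
    rw [norm_neg, norm_mul, norm_I, one_mul, Complex.norm_real, Real.norm_eq_abs,
      abs_of_nonneg h0]
  simp only [Finset.sum_range_succ, Finset.sum_range_zero, bt, arcb] at h
  norm_num at h
  rw [e, abs_of_nonneg h0] at h
  linarith

theorem greatest_aux {lam : ℝ} (hl : 0 < lam) (m : ℕ) (hm : lam = ((2 * m : ℕ) : ℝ))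
    {r : ℝ} (hr : 1 < r) {T : ℝ} (κ : (ℕ → ℂ) → ℕ → ℂ)
    (hκ : ∀ (F : ℂ → ℂ) (b : ℕ → ℂ), PS (bt b) (hh F) → PS (κ b) (fun w => hh F w ^ m))
    (hup : ∀ (F : ℂ → ℂ) (b : ℕ → ℂ), InjOn F {z | 1 < ‖z‖} →
      (∀ z : ℂ, 1 < ‖z‖ → HasSum (fun n : ℕ => b (n + 1) * z⁻¹ ^ (n + 1)) (F z - z)) →
      ∀ S, HasSum (fun k => ‖κ b k‖ ^ 2 * ((r⁻¹) ^ 2) ^ k) S → S ≤ T)
    (hlow : ∀ S, HasSum (fun k => ‖κ (arcb 0) k‖ ^ 2 * ((r⁻¹) ^ 2) ^ k) S → T ≤ S) :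
    IsGreatest {x : ℝ | ∃ F : ℂ → ℂ, Sig F ∧ x = integralMean lam r F}
      ((r ^ (2 * m) * T) ^ (1 / lam)) := by
  constructor
  · have hs := arc_sig (t := 0) le_rfl one_pos
    refine ⟨arc 0, hs, ?_⟩
    have hb := arc_series (t := 0) le_rfl one_pos
    have hP := hκ _ _ (hh_PS hb)
    obtain ⟨S, hS⟩ := summable_ext hP hr
    rw [mean_even m hm hP hr hS]
    have h1 := hup _ _ hs.2.1 hb S hS
    have h2 := hlow S hS
    rw [le_antisymm h1 h2]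
  · rintro y ⟨F, ⟨hd, hi, b, hb⟩, rfl⟩
    have hP := hκ _ _ (hh_PS hb)
    obtain ⟨S, hS⟩ := summable_ext hP hr
    rw [mean_even m hm hP hr hS]
    have h1 := hup _ _ hi hb S hS
    have h0 : 0 ≤ S := hS.nonneg (fun k => by positivity)
    have hr0 : 0 < r := by linarith
    apply Real.rpow_le_rpow (by positivity) _ (by positivity)
    exact mul_le_mul_of_nonneg_left h1 (by positivity)

/-- Sharp integral means in the class `Σ`: for every `r > 1` and `λ = 2, 4, 6` the supremum of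
`I_λ(r, F)` is attained and has the stated value; the supremum of `I_2(r, F')` is
`(1 + r⁻⁴)^{1/2}` for `r ≥ √2` and is larger than this for `1 < r < √2`. -/
theorem result :
    (∀ r : ℝ, 1 < r →
      IsGreatest {x : ℝ | ∃ F : ℂ → ℂ, Sig F ∧ x = integralMean 2 r F}
        ((r ^ 2 + 1 / r ^ 2) ^ ((1 : ℝ) / 2)) ∧
      IsGreatest {x : ℝ | ∃ F : ℂ → ℂ, Sig F ∧ x = integralMean 4 r F}
        ((r ^ 4 + 4 + 1 / r ^ 4) ^ ((1 : ℝ) / 4)) ∧
      IsGreatest {x : ℝ | ∃ F : ℂ → ℂ, Sig F ∧ x = integralMean 6 r F}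
        ((r ^ 6 + 9 * r ^ 2 + 9 / r ^ 2 + 1 / r ^ 6) ^ ((1 : ℝ) / 6))) ∧
    (∀ r : ℝ, Real.sqrt 2 ≤ r →
      IsGreatest {x : ℝ | ∃ F : ℂ → ℂ, Sig F ∧ x = integralMean 2 r (deriv F)}
        ((1 + 1 / r ^ 4) ^ ((1 : ℝ) / 2))) ∧
    (∀ r : ℝ, 1 < r → r < Real.sqrt 2 →
      ∃ F : ℂ → ℂ, Sig F ∧ (1 + 1 / r ^ 4) ^ ((1 : ℝ) / 2) < integralMean 2 r (deriv F)) := by
  refine ⟨fun r hr => ?_, fun r hr => ?_, fun r hr hr2 => ?_⟩
  · obtain ⟨hx0, hx1⟩ := xr hr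
    have hr0 : r ≠ 0 := by linarith
    refine ⟨?_, ?_, ?_⟩
    · have h := greatest_aux (lam := 2) (by norm_num) 1 (by norm_num) hr (T := 1 + ((r⁻¹) ^ 2) ^ 2)
        (fun b => bt b) (fun F b h => PS1 h)
        (fun F b hF hb S hS => bound1 hF hb hx0 hx1 hS) (fun S hS => lower1 hx0 hS)
      have e : r ^ (2 * 1) * (1 + ((r⁻¹) ^ 2) ^ 2) = r ^ 2 + 1 / r ^ 2 := by field_simp
      rwa [e] at h
    · have h := greatest_aux (lam := 4) (by norm_num) 2 (by norm_num) hr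
        (T := 1 + 4 * ((r⁻¹) ^ 2) ^ 2 + ((r⁻¹) ^ 2) ^ 4)
        (fun b => cv (bt b) (bt b)) (fun F b h => PS2 h)
        (fun F b hF hb S hS => bound2 hF hb hx0 hx1 hS) (fun S hS => lower2 hx0 hS)
      have e : r ^ (2 * 2) * (1 + 4 * ((r⁻¹) ^ 2) ^ 2 + ((r⁻¹) ^ 2) ^ 4) =
          r ^ 4 + 4 + 1 / r ^ 4 := by field_simp
      rwa [e] at h
    · have h := greatest_aux (lam := 6) (by norm_num) 3 (by norm_num) hr
        (T := 1 + 9 * ((r⁻¹) ^ 2) ^ 2 + 9 * ((r⁻¹) ^ 2) ^ 4 + ((r⁻¹) ^ 2) ^ 6)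
        (fun b => cv (bt b) (cv (bt b) (bt b))) (fun F b h => PS3 h)
        (fun F b hF hb S hS => bound3 hF hb hx0 hx1 hS) (fun S hS => lower3 hx0 hS)
      have e : r ^ (2 * 3) * (1 + 9 * ((r⁻¹) ^ 2) ^ 2 + 9 * ((r⁻¹) ^ 2) ^ 4 + ((r⁻¹) ^ 2) ^ 6) =
          r ^ 6 + 9 * r ^ 2 + 9 / r ^ 2 + 1 / r ^ 6 := by field_simp
      rwa [e] at h
  · have hs2 : (1 : ℝ) < Real.sqrt 2 := by
      rw [show (1 : ℝ) = Real.sqrt 1 by simp]
      exact Real.sqrt_lt_sqrt (by norm_num) (by norm_num)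
    have hr1 : 1 < r := by linarith
    have hr0 : r ≠ 0 := by linarith
    obtain ⟨hx0, hx1⟩ := xr hr1
    have hr2 : 2 ≤ r ^ 2 := by
      have := Real.sq_sqrt (show (0 : ℝ) ≤ 2 by norm_num)
      nlinarith [Real.sqrt_nonneg 2]
    have hx2 : (r⁻¹) ^ 2 ≤ 1 / 2 := by
      rw [inv_pow, ← one_div]
      exact one_div_le_one_div_of_le (by norm_num) hr2
    have e : 1 + 1 / r ^ 4 = 1 + ((r⁻¹) ^ 2) ^ 2 := by field_simp
    rw [e]
    constructor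
    · have hs := arc_sig (t := 0) le_rfl one_pos
      refine ⟨arc 0, hs, ?_⟩
      have hb := arc_series (t := 0) le_rfl one_pos
      obtain ⟨S, hS, hm⟩ := mean_deriv hb hr1
      rw [hm]
      have h1 := bound_deriv hs.2.1 hb hx0 hx2 hS
      have h2 := lower_deriv (t := 0) le_rfl one_pos hx0 hS
      have e0 : 1 + (1 - (0 : ℝ) ^ 2) ^ 2 * ((r⁻¹) ^ 2) ^ 2 +
          4 * ((1 - (0 : ℝ) ^ 2) ^ 2 * 0 ^ 2) * ((r⁻¹) ^ 2) ^ 3 = 1 + ((r⁻¹) ^ 2) ^ 2 := by ring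
      rw [e0] at h2
      rw [le_antisymm h1 h2]
    · rintro y ⟨F, ⟨hd, hi, b, hb⟩, rfl⟩
      obtain ⟨S, hS, hm⟩ := mean_deriv hb hr1
      rw [hm]
      have h1 := bound_deriv hi hb hx0 hx2 hS
      have h0 : 0 ≤ S := hS.nonneg (fun k => by positivity)
      exact Real.rpow_le_rpow h0 h1 (by norm_num)
  · have hr0 : r ≠ 0 := by linarith
    obtain ⟨hx0, hx1⟩ := xr hr
    have hr3 : r ^ 2 < 2 := by
      have := Real.sq_sqrt (show (0 : ℝ) ≤ 2 by norm_num)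
      nlinarith [Real.sqrt_nonneg 2]
    have hx2 : 1 / 2 < (r⁻¹) ^ 2 := by
      rw [inv_pow, ← one_div]
      exact one_div_lt_one_div_of_lt (by positivity) hr3
    have e : 1 + 1 / r ^ 4 = 1 + ((r⁻¹) ^ 2) ^ 2 := by field_simp
    rw [e]
    set x := (r⁻¹) ^ 2 with hx
    set s := (2 * x - 1) / 8 with hs
    have hs0 : 0 < s := by rw [hs]; linarith
    have hs1 : s < 1 := by rw [hs]; linarith
    have ht0 : 0 ≤ Real.sqrt s := Real.sqrt_nonneg _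
    have ht1 : Real.sqrt s < 1 := by
      rw [show (1 : ℝ) = Real.sqrt 1 by simp]
      exact Real.sqrt_lt_sqrt hs0.le hs1
    have hsig := arc_sig ht0 ht1
    refine ⟨arc (Real.sqrt s), hsig, ?_⟩
    obtain ⟨S, hS, hm⟩ := mean_deriv (arc_series ht0 ht1) hr
    rw [hm]
    have h2 := lower_deriv ht0 ht1 hx0 hS
    rw [Real.sq_sqrt hs0.le] at h2
    apply Real.rpow_lt_rpow (by positivity) _ (by norm_num)
    refine lt_of_lt_of_le ?_ h2
    have h3 : 1 < (1 - s) ^ 2 * (1 + 4 * s * x) := by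
      have h4 : x = 4 * s + 1 / 2 := by rw [hs]; ring
      have h5 : (1 - s) ^ 2 * (1 + 4 * s * x) - 1 = s ^ 2 * (13 - 30 * s + 16 * s ^ 2) := by
        rw [h4]; ring
      have h6 : s ≤ 1 / 8 := by rw [hs]; linarith
      have h7 : 0 < s ^ 2 * (13 - 30 * s + 16 * s ^ 2) := by
        apply mul_pos (by positivity)
        nlinarith
      linarith
    have hx2' : 0 < x ^ 2 := by positivity
    nlinarith [mul_lt_mul_of_pos_left h3 hx2']

end Pool.Agent.Results.MP_56f757_an.SharpMeans
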