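import Mathlib
import Pool.Agent.Helper405.AreaA

set_option autoImplicit false
open Complex MeasureTheory Set Filter Topology Metric

/-!
# MP_56f757_an: exact integral means `I_2, I_4, I_6` for the class `Σ`

For `F = z + ∑ b_n z^{-n}` in `Σ` put `P z = z F (1/z)`.  Parseval on `|z| = 1/r` turns
`I_{2k}(r, F)^{2k}` into `r^{2k} ∑ |c_j|² r^{-2j}`, where `c_j` are the Taylor coefficients of
`P ^ k`, and the area theorem applied to `F ^ k` says `∑ (j - k) |c_j|² ≤ 0`.  The cases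
`k = 1, 2, 3` follow by combining the area theorems for `F`, `F ^ 2` and `F ^ 3`.
-/

namespace Pool.Agent.Results.MP_56f757_an.SigmaMeans
open Pool.Agent.Helper405.Area

/-- The class `Σ`: functions `F z = z + ∑_{n ≥ 1} b n z^{-n}` analytic and univalent in `|z| > 1`. -/
def IsSigma (F : ℂ → ℂ) : Prop :=
  DifferentiableOn ℂ F {z | 1 < ‖z‖} ∧ InjOn F {z | 1 < ‖z‖} ∧
    ∃ b : ℕ → ℂ, ∀ z : ℂ, 1 < ‖z‖ → HasSum (fun n : ℕ => b (n + 1) * (z ^ (n + 1))⁻¹) (F z - z)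

/-- The integral mean `I_lam(r, g)`. -/
noncomputable def mean (lam r : ℝ) (g : ℂ → ℂ) : ℝ :=
  ((2 * Real.pi)⁻¹ * ∫ θ in (0:ℝ)..(2 * Real.pi), ‖g (r * exp (θ * I))‖ ^ lam) ^ (1 / lam)

/-- Cauchy product of coefficient sequences. -/
noncomputable def cv (a b : ℕ → ℂ) (n : ℕ) : ℂ :=
  ∑ kl ∈ Finset.HasAntidiagonal.antidiagonal n, a kl.1 * b kl.2

/-- `P` is the sum of the power series with coefficients `a` on the unit disc. -/
def Rep (a : ℕ → ℂ) (P : ℂ → ℂ) : Prop :=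
  ∀ z ∈ ball (0:ℂ) 1, HasSum (fun j => a j * z ^ j) (P z)

lemma Rep.mul {a b : ℕ → ℂ} {P Q : ℂ → ℂ} (ha : Rep a P) (hb : Rep b Q) :
    Rep (cv a b) (fun z => P z * Q z) := by
  intro z hz
  have h1 := (ha z hz).summable.norm
  have h2 := (hb z hz).summable.norm
  have h3 := summable_norm_sum_mul_antidiagonal_of_summable_norm h1 h2
  have h4 := tsum_mul_tsum_eq_tsum_sum_antidiagonal_of_summable_norm h1 h2
  have h5 : (fun n => ∑ kl ∈ Finset.HasAntidiagonal.antidiagonal n, a kl.1 * z ^ kl.1 * (b kl.2 * z ^ kl.2))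
      = fun n => cv a b n * z ^ n := by
    funext n
    rw [cv, Finset.sum_mul]
    refine Finset.sum_congr rfl fun kl hkl => ?_
    rw [← Finset.HasAntidiagonal.mem_antidiagonal.mp hkl, pow_add]
    ring
  have h6 : Summable (fun n => cv a b n * z ^ n) := by
    rw [← h5]; exact h3.of_norm
  have h7 : P z * Q z = ∑' n, cv a b n * z ^ n := by
    rw [← (ha z hz).tsum_eq, ← (hb z hz).tsum_eq, h4, h5]
  show HasSum _ (P z * Q z)
  rw [h7]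
  exact h6.hasSum

lemma Rep.diff {a : ℕ → ℂ} {P : ℂ → ℂ} (ha : Rep a P) : DifferentiableOn ℂ P (ball 0 1) := by
  intro z hz
  rw [mem_ball_zero_iff] at hz
  obtain ⟨ρ, hρ1, hρ2⟩ := exists_between hz
  have hρ0 : 0 ≤ ρ := (norm_nonneg z).trans hρ1.le
  have h1 : DifferentiableOn ℂ (fun w => ∑' j, a j * w ^ j) (ball 0 ρ) := by
    apply Complex.differentiableOn_tsum_of_summable_norm (u := fun j => ‖a j‖ * ρ ^ j)
      (summable_of_hasSum ha hρ0 hρ2) _ isOpen_ball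
    · intro j w hw
      rw [mem_ball_zero_iff] at hw
      rw [norm_mul, norm_pow]
      gcongr
    · intro j
      fun_prop
  have h2 : DifferentiableAt ℂ (fun w => ∑' j, a j * w ^ j) z :=
    h1.differentiableAt (isOpen_ball.mem_nhds (by rwa [mem_ball_zero_iff]))
  have h3 : P =ᶠ[𝓝 z] fun w => ∑' j, a j * w ^ j := by
    filter_upwards [isOpen_ball.mem_nhds (show z ∈ ball (0:ℂ) 1 by rwa [mem_ball_zero_iff])]
      with w hw
    exact (ha w hw).tsum_eq.symm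
  exact (h2.congr_of_eventuallyEq h3).differentiableWithinAt

/-- The normalised series of `z ↦ F (1/z)`: coefficients `1, 0, b₁, b₂, …`. -/
def coef (b : ℕ → ℂ) : ℕ → ℂ
  | 0 => 1
  | 1 => 0
  | (n + 2) => b (n + 1)

noncomputable def Pf (F : ℂ → ℂ) (z : ℂ) : ℂ := if z = 0 then 1 else F z⁻¹ * z

lemma rep_Pf {F : ℂ → ℂ} {b : ℕ → ℂ}
    (hb : ∀ z : ℂ, 1 < ‖z‖ → HasSum (fun n : ℕ => b (n + 1) * (z ^ (n + 1))⁻¹) (F z - z)) :
    Rep (coef b) (Pf F) := by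
  intro z hz
  rw [mem_ball_zero_iff] at hz
  by_cases h0 : z = 0
  · subst h0
    have h1 : Pf F 0 = coef b 0 * (0:ℂ) ^ 0 := by simp [Pf, coef]
    rw [h1]
    apply hasSum_single 0
    intro j hj
    simp [hj]
  · have h1 : 1 < ‖z⁻¹‖ := by
      rw [norm_inv]
      exact (one_lt_inv₀ (norm_pos_iff.2 h0)).2 hz
    have h2 := (hb _ h1).mul_right z
    have h3 : HasSum (fun n : ℕ => coef b (n + 2) * z ^ (n + 2)) (F z⁻¹ * z - 1) := by
      have e1 : (fun n : ℕ => coef b (n + 2) * z ^ (n + 2))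
          = fun i : ℕ => b (i + 1) * (z⁻¹ ^ (i + 1))⁻¹ * z := by
        funext n
        simp only [coef, inv_pow, inv_inv]
        ring
      have e2 : F z⁻¹ * z - 1 = (F z⁻¹ - z⁻¹) * z := by
        rw [sub_mul, inv_mul_cancel₀ h0]
      rw [e1, e2]
      exact h2
    rw [hasSum_nat_add_iff (f := fun j => coef b j * z ^ j) 2] at h3
    have h4 : F z⁻¹ * z - 1 + ∑ i ∈ Finset.range 2, coef b i * z ^ i = Pf F z := by
      simp [Finset.sum_range_succ, coef, Pf, h0]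
    rw [h4] at h3
    exact h3

section area
variable {F : ℂ → ℂ} {b : ℕ → ℂ}

lemma inv_mem {z : ℂ} (hz : z ∈ Dp) : 1 < ‖z⁻¹‖ := by
  rw [norm_inv]
  exact (one_lt_inv₀ (norm_pos_iff.2 hz.2)).2 (by simpa using hz.1)

lemma area_fin (hd : DifferentiableOn ℂ F {z | 1 < ‖z‖}) (hi : InjOn F {z | 1 < ‖z‖})
    (hb : ∀ z : ℂ, 1 < ‖z‖ → HasSum (fun n : ℕ => b (n + 1) * (z ^ (n + 1))⁻¹) (F z - z))
    (k : ℕ) {c : ℕ → ℂ} (hc : Rep c (fun z => Pf F z ^ k)) (N : ℕ) (hN : k ≤ N) :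
    ∑ j ∈ Finset.range N, ((j : ℝ) - k) * ‖c j‖ ^ 2 ≤ 0 := by
  have hP := rep_Pf hb
  set h : ℂ → ℂ := fun z => F z⁻¹ with hh
  have hhd : DifferentiableOn ℂ h Dp := by
    apply hd.comp (t := {z : ℂ | 1 < ‖z‖})
    · intro z hz
      exact (differentiableAt_inv hz.2).differentiableWithinAt
    · intro z hz
      exact inv_mem hz
  have hhi : InjOn h Dp := by
    intro z hz w hw hzw
    have := hi (inv_mem hz) (inv_mem hw) hzw
    exact inv_injective this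
  have hPz : ∀ z ∈ Dp, h z * z = Pf F z := by
    intro z hz
    have h0 : z ≠ 0 := hz.2
    simp [hh, Pf, h0]
  have hP0 : Pf F 0 = 1 := by simp [Pf]
  have hPc : ContinuousAt (Pf F) 0 :=
    (hP.diff.differentiableAt (isOpen_ball.mem_nhds (by simp))).continuousAt
  have hp : Tendsto h (𝓝[≠] 0) (Bornology.cobounded ℂ) := by
    have e1 : Tendsto (fun z : ℂ => z⁻¹) (𝓝[≠] 0) (Bornology.cobounded ℂ) :=
      tendsto_inv₀_nhdsNE_zero
    rw [← tendsto_norm_atTop_iff_cobounded] at e1 ⊢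
    have e2 : Tendsto (fun z : ℂ => ‖Pf F z‖) (𝓝[≠] 0) (𝓝 1) := by
      have := hPc.norm.tendsto.mono_left (nhdsWithin_le_nhds (s := {(0:ℂ)}ᶜ))
      simpa [hP0] using this
    have e3 := e2.pos_mul_atTop one_pos e1
    refine e3.congr' ?_
    have e4 : ∀ᶠ z in 𝓝[≠] (0:ℂ), z ∈ Dp := by
      have : Dp = ball (0:ℂ) 1 ∩ {0}ᶜ := rfl
      rw [this]
      exact inter_mem (mem_nhdsWithin_of_mem_nhds (isOpen_ball.mem_nhds (by simp)))
        self_mem_nhdsWithin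
    filter_upwards [e4] with z hz
    rw [← hPz z hz, ← norm_mul, mul_assoc, mul_inv_cancel₀ hz.2, mul_one]
  have hsum : ∀ ρ : ℝ, 0 < ρ → ρ < 1 →
      ∑ j ∈ Finset.range N, ((j : ℝ) - k) * ‖c j‖ ^ 2 * ρ ^ (2 * j) ≤ 0 := by
    intro ρ h0 h1
    have hA := area hhd hhi hp (V := fun w => w ^ k) (by fun_prop) hc.diff (m := k)
      (fun z hz => by rw [← mul_pow, hPz z hz]) hc h0 h1
    have hQs := hasSum_Q hc k
    have hpv := parseval h0.le (summable_of_hasSum hc h0.le h1) (summable_of_hasSum hQs h0.le h1)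
      (fun z hz => hc z (by rw [mem_ball_zero_iff, hz]; exact h1))
      (fun z hz => hQs z (by rw [mem_ball_zero_iff, hz]; exact h1))
    have h2 : (fun j : ℕ => (starRingEnd ℂ) (c j) * (((j : ℂ) - k) * c j) * ((ρ ^ (2 * j) : ℝ) : ℂ))
        = fun j : ℕ => ((((j : ℝ) - k) * ‖c j‖ ^ 2 * ρ ^ (2 * j) : ℝ) : ℂ) := by
      funext j
      have h3 : ((‖c j‖ ^ 2 : ℝ) : ℂ) = (starRingEnd ℂ) (c j) * c j := by
        rw [← Complex.normSq_eq_norm_sq, Complex.normSq_eq_conj_mul_self]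
      rw [ofReal_mul, ofReal_mul, h3]
      push_cast
      ring
    rw [h2] at hpv
    have hre := (Complex.hasSum_re hpv).summable
    simp only [ofReal_re] at hre
    refine (hre.sum_le_tsum _ ?_).trans hA
    intro j hj
    rw [Finset.mem_range, not_lt] at hj
    have : (k : ℝ) ≤ j := by exact_mod_cast hN.trans hj
    have h4 : 0 ≤ (j : ℝ) - k := by linarith
    positivity
  have hcont : Tendsto (fun ρ : ℝ => ∑ j ∈ Finset.range N, ((j : ℝ) - k) * ‖c j‖ ^ 2 * ρ ^ (2 * j))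
      (𝓝[<] 1) (𝓝 (∑ j ∈ Finset.range N, ((j : ℝ) - k) * ‖c j‖ ^ 2 * 1 ^ (2 * j))) := by
    apply Tendsto.mono_left _ nhdsWithin_le_nhds
    apply Continuous.tendsto
    fun_prop
  simp only [one_pow, mul_one] at hcont
  refine le_of_tendsto hcont ?_
  have : Ioo (0:ℝ) 1 ∈ 𝓝[<] (1:ℝ) := Ioo_mem_nhdsLT one_pos
  filter_upwards [this] with ρ hρ
  exact hsum ρ hρ.1 hρ.2

end area

/-- Parseval for a power series on a circle of radius `s < 1`. -/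
lemma parseval_real {c : ℕ → ℂ} {P : ℂ → ℂ} (hc : Rep c P) {s : ℝ} (hs0 : 0 ≤ s) (hs1 : s < 1) :
    (2 * Real.pi)⁻¹ * ∫ θ in (0:ℝ)..(2 * Real.pi), ‖P (circleMap 0 s θ)‖ ^ 2
      = ∑' j, ‖c j‖ ^ 2 * (s ^ 2) ^ j := by
  have h1 := parseval hs0 (summable_of_hasSum hc hs0 hs1) (summable_of_hasSum hc hs0 hs1)
    (fun z hz => hc z (by rw [mem_ball_zero_iff, hz]; exact hs1))
    (fun z hz => hc z (by rw [mem_ball_zero_iff, hz]; exact hs1))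
  have h2 : (fun j : ℕ => (starRingEnd ℂ) (c j) * c j * ((s ^ (2 * j) : ℝ) : ℂ))
      = fun j : ℕ => ((‖c j‖ ^ 2 * (s ^ 2) ^ j : ℝ) : ℂ) := by
    funext j
    have h3 : ((‖c j‖ ^ 2 : ℝ) : ℂ) = (starRingEnd ℂ) (c j) * c j := by
      rw [← Complex.normSq_eq_norm_sq, Complex.normSq_eq_conj_mul_self]
    rw [ofReal_mul, h3, pow_mul]
  have h4 : (fun θ : ℝ => (starRingEnd ℂ) (P (circleMap 0 s θ)) * P (circleMap 0 s θ))
      = fun θ : ℝ => ((‖P (circleMap 0 s θ)‖ ^ 2 : ℝ) : ℂ) := by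
    funext θ
    rw [← Complex.normSq_eq_norm_sq, Complex.normSq_eq_conj_mul_self]
  rw [h2, h4, intervalIntegral.integral_ofReal] at h1
  have h5 : (2 * Real.pi : ℂ)⁻¹ * ((∫ θ in (0:ℝ)..(2 * Real.pi), ‖P (circleMap 0 s θ)‖ ^ 2 : ℝ) : ℂ)
      = (((2 * Real.pi)⁻¹ * ∫ θ in (0:ℝ)..(2 * Real.pi), ‖P (circleMap 0 s θ)‖ ^ 2 : ℝ) : ℂ) := by
    push_cast
    ring
  rw [h5] at h1
  have h6 := Complex.hasSum_re h1
  simp only [ofReal_re] at h6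
  exact h6.tsum_eq.symm

lemma reflect (P : ℂ → ℂ) (s : ℝ) :
    ∫ θ in (0:ℝ)..(2 * Real.pi), ‖P ((s : ℂ) * exp (-(θ * I)))‖ ^ 2
      = ∫ θ in (0:ℝ)..(2 * Real.pi), ‖P (circleMap 0 s θ)‖ ^ 2 := by
  set g : ℝ → ℝ := fun θ => ‖P (circleMap 0 s θ)‖ ^ 2 with hg
  have h1 : (fun θ : ℝ => ‖P ((s : ℂ) * exp (-(θ * I)))‖ ^ 2) = fun θ => g (-θ) := by
    funext θ
    simp only [hg, circleMap, zero_add]
    congr 4
    push_cast
    ring_nf
  have hper : Function.Periodic g (2 * Real.pi) := by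
    intro θ
    simp only [hg]
    rw [(periodic_circleMap 0 s) θ]
  rw [h1, intervalIntegral.integral_comp_neg]
  have := hper.intervalIntegral_add_eq (-(2 * Real.pi)) 0
  simpa using this

lemma mean_eq {G Q : ℂ → ℂ} {c : ℕ → ℂ} (hc : Rep c Q) {r : ℝ} (hr : 1 < r) {k : ℕ}
    {A : ℝ}
    (hQ : ∀ z : ℂ, ‖z‖ = r⁻¹ → ‖G z⁻¹‖ ^ (2 * k) = A * ‖Q z‖ ^ 2) :
    mean ((2 * k : ℕ) : ℝ) r G
      = (A * ∑' j, ‖c j‖ ^ 2 * ((r⁻¹) ^ 2) ^ j) ^ (1 / ((2 * k : ℕ) : ℝ)) := by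
  have hr0 : 0 < r := by linarith
  unfold mean
  congr 1
  rw [← parseval_real hc (inv_nonneg.2 hr0.le) (inv_lt_one_of_one_lt₀ hr), ← reflect]
  have h1 : (fun θ : ℝ => ‖G (r * exp (θ * I))‖ ^ ((2 * k : ℕ) : ℝ))
      = fun θ : ℝ => A * ‖Q (((r⁻¹ : ℝ) : ℂ) * exp (-(θ * I)))‖ ^ 2 := by
    funext θ
    have e1 : (r : ℂ) * exp (θ * I) = (((r⁻¹ : ℝ) : ℂ) * exp (-(θ * I)))⁻¹ := by
      rw [mul_inv, exp_neg, inv_inv]
      push_cast
      rw [inv_inv]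
    have e2 : ‖((r⁻¹ : ℝ) : ℂ) * exp (-(θ * I))‖ = r⁻¹ := by
      rw [norm_mul, Complex.norm_real, exp_neg, norm_inv (exp (θ * I)),
        Complex.norm_exp_ofReal_mul_I]
      simp [abs_of_pos hr0]
    rw [Real.rpow_natCast, e1, hQ _ e2]
  rw [h1, intervalIntegral.integral_const_mul]
  ring

lemma tsum_bound {c : ℕ → ℂ} {k : ℕ} {t κ : ℝ} (ht0 : 0 ≤ t) (hκ : 0 ≤ κ) (N0 : ℕ)
    (hN0 : k ≤ N0)
    (harea : ∀ N, k ≤ N → ∑ j ∈ Finset.range N, ((j : ℝ) - k) * ‖c j‖ ^ 2 ≤ 0)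
    (htail : ∀ j, N0 ≤ j → t ^ j ≤ κ * ((j : ℝ) - k)) :
    ∑' j, ‖c j‖ ^ 2 * t ^ j ≤
      ∑ j ∈ Finset.range N0, ‖c j‖ ^ 2 * (t ^ j - κ * ((j : ℝ) - k)) := by
  apply Real.tsum_le_of_sum_range_le
  · intro n; positivity
  · intro n
    have h1 : ∑ j ∈ Finset.range n, ‖c j‖ ^ 2 * t ^ j
        ≤ ∑ j ∈ Finset.range (N0 + n), ‖c j‖ ^ 2 * t ^ j := by
      apply Finset.sum_le_sum_of_subset_of_nonneg
      · exact Finset.range_mono (by omega)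
      · intro i _ _; positivity
    have h2 : ∑ j ∈ Finset.range (N0 + n), ‖c j‖ ^ 2 * t ^ j
        = ∑ j ∈ Finset.range (N0 + n), ‖c j‖ ^ 2 * (t ^ j - κ * ((j : ℝ) - k))
          + κ * ∑ j ∈ Finset.range (N0 + n), ((j : ℝ) - k) * ‖c j‖ ^ 2 := by
      rw [Finset.mul_sum, ← Finset.sum_add_distrib]
      refine Finset.sum_congr rfl fun j _ => ?_
      ring
    have h3 := mul_nonpos_of_nonneg_of_nonpos hκ (harea (N0 + n) (by omega))
    have h4 : ∑ j ∈ Finset.range (N0 + n), ‖c j‖ ^ 2 * (t ^ j - κ * ((j : ℝ) - k))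
        ≤ ∑ j ∈ Finset.range N0, ‖c j‖ ^ 2 * (t ^ j - κ * ((j : ℝ) - k)) := by
      rw [Finset.sum_range_add]
      have : ∑ x ∈ Finset.range n,
          ‖c (N0 + x)‖ ^ 2 * (t ^ (N0 + x) - κ * (((N0 + x : ℕ) : ℝ) - k)) ≤ 0 := by
        apply Finset.sum_nonpos
        intro x _
        have h5 := htail (N0 + x) (by omega)
        have h6 : t ^ (N0 + x) - κ * (((N0 + x : ℕ) : ℝ) - k) ≤ 0 := by linarith
        exact mul_nonpos_of_nonneg_of_nonpos (by positivity) h6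
      linarith
    linarith

lemma cv_eq (a b : ℕ → ℂ) (n : ℕ) : cv a b n = ∑ i ∈ Finset.range (n + 1), a i * b (n - i) :=
  Finset.Nat.sum_antidiagonal_eq_sum_range_succ (fun i j => a i * b j) n

/-! ### The upper bounds -/

section upper
variable {F : ℂ → ℂ} {b : ℕ → ℂ}

lemma rep1 (hb : ∀ z : ℂ, 1 < ‖z‖ → HasSum (fun n : ℕ => b (n + 1) * (z ^ (n + 1))⁻¹) (F z - z)) :
    Rep (coef b) (fun z => Pf F z ^ 1) := by
  simpa using rep_Pf hb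

lemma rep2 (hb : ∀ z : ℂ, 1 < ‖z‖ → HasSum (fun n : ℕ => b (n + 1) * (z ^ (n + 1))⁻¹) (F z - z)) :
    Rep (cv (coef b) (coef b)) (fun z => Pf F z ^ 2) := by
  simpa only [pow_two] using (rep_Pf hb).mul (rep_Pf hb)

lemma rep3 (hb : ∀ z : ℂ, 1 < ‖z‖ → HasSum (fun n : ℕ => b (n + 1) * (z ^ (n + 1))⁻¹) (F z - z)) :
    Rep (cv (cv (coef b) (coef b)) (coef b)) (fun z => Pf F z ^ 3) := by
  simpa only [pow_succ (Pf F _) 2] using (rep2 hb).mul (rep_Pf hb)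

lemma c2_0 : cv (coef b) (coef b) 0 = 1 := by simp [cv_eq, Finset.sum_range_succ, coef]
lemma c2_1 : cv (coef b) (coef b) 1 = 0 := by simp [cv_eq, Finset.sum_range_succ, coef]
lemma c2_2 : cv (coef b) (coef b) 2 = 2 * b 1 := by
  simp [cv_eq, Finset.sum_range_succ, coef]; ring
lemma c2_3 : cv (coef b) (coef b) 3 = 2 * b 2 := by
  simp [cv_eq, Finset.sum_range_succ, coef]; ring
lemma c2_4 : cv (coef b) (coef b) 4 = 2 * b 3 + b 1 ^ 2 := by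
  simp [cv_eq, Finset.sum_range_succ, coef]; ring
lemma c2_5 : cv (coef b) (coef b) 5 = 2 * b 4 + 2 * b 1 * b 2 := by
  simp [cv_eq, Finset.sum_range_succ, coef]; ring

lemma c3_0 : cv (cv (coef b) (coef b)) (coef b) 0 = 1 := by
  rw [cv_eq]; simp [Finset.sum_range_succ, coef, c2_0]
lemma c3_1 : cv (cv (coef b) (coef b)) (coef b) 1 = 0 := by
  rw [cv_eq]; simp [Finset.sum_range_succ, coef, c2_0, c2_1]
lemma c3_2 : cv (cv (coef b) (coef b)) (coef b) 2 = 3 * b 1 := by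
  rw [cv_eq]; simp [Finset.sum_range_succ, coef, c2_0, c2_1, c2_2]; ring
lemma c3_3 : cv (cv (coef b) (coef b)) (coef b) 3 = 3 * b 2 := by
  rw [cv_eq]; simp [Finset.sum_range_succ, coef, c2_0, c2_1, c2_2, c2_3]; ring
lemma c3_4 : cv (cv (coef b) (coef b)) (coef b) 4 = 3 * b 3 + 3 * b 1 ^ 2 := by
  rw [cv_eq]; simp [Finset.sum_range_succ, coef, c2_0, c2_1, c2_2, c2_3, c2_4]; ring
lemma c3_5 : cv (cv (coef b) (coef b)) (coef b) 5 = 3 * b 4 + 6 * b 1 * b 2 := by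
  rw [cv_eq]; simp [Finset.sum_range_succ, coef, c2_0, c2_1, c2_2, c2_3, c2_4, c2_5]; ring

lemma pow_le_pow_t {t : ℝ} (ht0 : 0 ≤ t) (ht1 : t ≤ 1) {m j : ℕ} (h : m ≤ j) : t ^ j ≤ t ^ m :=
  pow_le_pow_of_le_one ht0 ht1 h

/-- Area theorem for `F`. -/
lemma area1 (hd : DifferentiableOn ℂ F {z | 1 < ‖z‖}) (hi : InjOn F {z | 1 < ‖z‖})
    (hb : ∀ z : ℂ, 1 < ‖z‖ → HasSum (fun n : ℕ => b (n + 1) * (z ^ (n + 1))⁻¹) (F z - z)) :
    ‖b 1‖ ^ 2 + 2 * ‖b 2‖ ^ 2 + 3 * ‖b 3‖ ^ 2 + 4 * ‖b 4‖ ^ 2 ≤ 1 := by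
  have h := area_fin hd hi hb 1 (rep1 hb) 6 (by norm_num)
  simp [Finset.sum_range_succ, coef] at h
  norm_num at h
  linarith

/-- Area theorem for `F ^ 2`. -/
lemma area2 (hd : DifferentiableOn ℂ F {z | 1 < ‖z‖}) (hi : InjOn F {z | 1 < ‖z‖})
    (hb : ∀ z : ℂ, 1 < ‖z‖ → HasSum (fun n : ℕ => b (n + 1) * (z ^ (n + 1))⁻¹) (F z - z)) :
    ‖2 * b 3 + b 1 ^ 2‖ ≤ 1 := by
  have h := area_fin hd hi hb 2 (rep2 hb) 5 (by norm_num)
  rw [Finset.sum_range_succ, Finset.sum_range_succ, Finset.sum_range_succ, Finset.sum_range_succ,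
    Finset.sum_range_succ, Finset.sum_range_zero, c2_0, c2_1, c2_2, c2_3, c2_4] at h
  norm_num at h
  have h3 : 0 ≤ ‖b 2‖ ^ 2 := by positivity
  have h4 : 0 ≤ (2 * ‖b 2‖) ^ 2 := by positivity
  have h5 : ‖2 * b 3 + b 1 ^ 2‖ ^ 2 ≤ 1 := by nlinarith
  nlinarith [norm_nonneg (2 * b 3 + b 1 ^ 2)]

lemma bound1 (hd : DifferentiableOn ℂ F {z | 1 < ‖z‖}) (hi : InjOn F {z | 1 < ‖z‖})
    (hb : ∀ z : ℂ, 1 < ‖z‖ → HasSum (fun n : ℕ => b (n + 1) * (z ^ (n + 1))⁻¹) (F z - z))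
    {t : ℝ} (ht0 : 0 ≤ t) (ht1 : t ≤ 1) :
    ∑' j, ‖coef b j‖ ^ 2 * t ^ j ≤ 1 + t ^ 2 := by
  have h := tsum_bound (c := coef b) (k := 1) ht0 (show 0 ≤ t ^ 2 by positivity) 2 (by norm_num)
    (area_fin hd hi hb 1 (rep1 hb)) (by
      intro j hj
      have h1 := pow_le_pow_t ht0 ht1 hj
      have h2 : (1:ℝ) ≤ (j : ℝ) - (1 : ℕ) := by
        have : (2:ℝ) ≤ j := by exact_mod_cast hj
        push_cast; linarith
      nlinarith [sq_nonneg t])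
  refine h.trans (le_of_eq ?_)
  simp [Finset.sum_range_succ, coef]

lemma bound2 (hd : DifferentiableOn ℂ F {z | 1 < ‖z‖}) (hi : InjOn F {z | 1 < ‖z‖})
    (hb : ∀ z : ℂ, 1 < ‖z‖ → HasSum (fun n : ℕ => b (n + 1) * (z ^ (n + 1))⁻¹) (F z - z))
    {t : ℝ} (ht0 : 0 ≤ t) (ht1 : t ≤ 1) :
    ∑' j, ‖cv (coef b) (coef b) j‖ ^ 2 * t ^ j ≤ 1 + 4 * t ^ 2 + t ^ 4 := by
  have h := tsum_bound (c := cv (coef b) (coef b)) (k := 2) ht0
    (show 0 ≤ t ^ 4 / 2 by positivity) 4 (by norm_num)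
    (area_fin hd hi hb 2 (rep2 hb)) (by
      intro j hj
      have h1 := pow_le_pow_t ht0 ht1 hj
      have h2 : (2:ℝ) ≤ (j : ℝ) - (2 : ℕ) := by
        have : (4:ℝ) ≤ j := by exact_mod_cast hj
        push_cast; linarith
      have h3 : 0 ≤ t ^ 4 / 2 := by positivity
      have h4 := mul_le_mul_of_nonneg_left h2 h3
      linarith)
  refine h.trans ?_
  rw [Finset.sum_range_succ, Finset.sum_range_succ, Finset.sum_range_succ, Finset.sum_range_succ,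
    Finset.sum_range_zero, c2_0, c2_1, c2_2, c2_3]
  have hA := area1 hd hi hb
  have e1 : ‖2 * b 1‖ = 2 * ‖b 1‖ := by rw [norm_mul]; norm_num
  have e2 : ‖2 * b 2‖ = 2 * ‖b 2‖ := by rw [norm_mul]; norm_num
  rw [e1, e2, norm_one, norm_zero]
  push_cast
  set X := ‖b 1‖ ^ 2 with hX
  set Y := ‖b 2‖ ^ 2 with hY
  have hY0 : 0 ≤ Y := by positivity
  have hX0 : 0 ≤ X := by positivity
  have hYX : 2 * Y ≤ 1 - X := by
    have := sq_nonneg ‖b 3‖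
    have := sq_nonneg ‖b 4‖
    linarith
  have k1 : 2 * t - t ^ 2 ≤ 1 := by nlinarith [sq_nonneg (t - 1)]
  have k2 : 0 ≤ 2 * t - t ^ 2 := by nlinarith
  have k3 : 2 * Y * (2 * t - t ^ 2) ≤ (1 - X) * 1 :=
    mul_le_mul hYX k1 k2 (by linarith)
  have k4 : t ^ 2 * (2 * Y * (2 * t - t ^ 2)) ≤ t ^ 2 * ((1 - X) * 1) :=
    mul_le_mul_of_nonneg_left k3 (by positivity)
  have k5 : 0 ≤ t ^ 2 * (1 - X) := mul_nonneg (by positivity) (by linarith)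
  nlinarith [k4, k5]

lemma bound3 (hd : DifferentiableOn ℂ F {z | 1 < ‖z‖}) (hi : InjOn F {z | 1 < ‖z‖})
    (hb : ∀ z : ℂ, 1 < ‖z‖ → HasSum (fun n : ℕ => b (n + 1) * (z ^ (n + 1))⁻¹) (F z - z))
    {t : ℝ} (ht0 : 0 ≤ t) (ht1 : t ≤ 1) :
    ∑' j, ‖cv (cv (coef b) (coef b)) (coef b) j‖ ^ 2 * t ^ j
      ≤ 1 + 9 * t ^ 2 + 9 * t ^ 4 + t ^ 6 := by
  have h := tsum_bound (c := cv (cv (coef b) (coef b)) (coef b)) (k := 3) ht0
    (show 0 ≤ t ^ 6 / 3 by positivity) 6 (by norm_num)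
    (area_fin hd hi hb 3 (rep3 hb)) (by
      intro j hj
      have h1 := pow_le_pow_t ht0 ht1 hj
      have h2 : (3:ℝ) ≤ (j : ℝ) - (3 : ℕ) := by
        have : (6:ℝ) ≤ j := by exact_mod_cast hj
        push_cast; linarith
      have h3 : 0 ≤ t ^ 6 / 3 := by positivity
      have h4 := mul_le_mul_of_nonneg_left h2 h3
      linarith)
  refine h.trans ?_
  rw [Finset.sum_range_succ, Finset.sum_range_succ, Finset.sum_range_succ, Finset.sum_range_succ,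
    Finset.sum_range_succ, Finset.sum_range_succ,
    Finset.sum_range_zero, c3_0, c3_1, c3_2, c3_3, c3_4, c3_5]
  have hA := area1 hd hi hb
  have hB := area2 hd hi hb
  have e1 : ‖3 * b 1‖ = 3 * ‖b 1‖ := by rw [norm_mul]; norm_num
  have e2 : ‖3 * b 2‖ = 3 * ‖b 2‖ := by rw [norm_mul]; norm_num
  have e3 : ‖3 * b 3 + 3 * b 1 ^ 2‖ ≤ 3 / 2 * (1 + ‖b 1‖ ^ 2) := by
    have : 3 * b 3 + 3 * b 1 ^ 2 = (3 / 2 : ℂ) * ((2 * b 3 + b 1 ^ 2) + b 1 ^ 2) := by ring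
    rw [this, norm_mul]
    have h1 := norm_add_le (2 * b 3 + b 1 ^ 2) (b 1 ^ 2)
    rw [norm_pow] at h1
    have h2 : ‖(3 / 2 : ℂ)‖ = 3 / 2 := by norm_num
    rw [h2]
    nlinarith
  have e4 : ‖3 * b 4 + 6 * b 1 * b 2‖ ≤ 3 * ‖b 4‖ + 6 * ‖b 2‖ := by
    have h1 := norm_add_le (3 * b 4) (6 * b 1 * b 2)
    have h2 : ‖3 * b 4‖ = 3 * ‖b 4‖ := by rw [norm_mul]; norm_num
    have h3 : ‖6 * b 1 * b 2‖ = 6 * ‖b 1‖ * ‖b 2‖ := by rw [norm_mul, norm_mul]; norm_num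
    have h4 : ‖b 1‖ ≤ 1 := by
      nlinarith [norm_nonneg (b 1), sq_nonneg ‖b 2‖, sq_nonneg ‖b 3‖, sq_nonneg ‖b 4‖]
    have h5 : ‖b 1‖ * ‖b 2‖ ≤ 1 * ‖b 2‖ := mul_le_mul_of_nonneg_right h4 (norm_nonneg _)
    linarith
  rw [e1, e2, norm_one, norm_zero]
  push_cast
  set X := ‖b 1‖ with hX
  set Y := ‖b 2‖ with hY
  set W := ‖b 4‖ with hW
  set A4 := ‖3 * b 3 + 3 * b 1 ^ 2‖ with hA4
  set A5 := ‖3 * b 4 + 6 * b 1 * b 2‖ with hA5
  have hX0 : 0 ≤ X := norm_nonneg _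
  have hY0 : 0 ≤ Y := norm_nonneg _
  have hW0 : 0 ≤ W := norm_nonneg _
  have hA40 : 0 ≤ A4 := norm_nonneg _
  have hA50 : 0 ≤ A5 := norm_nonneg _
  have hq : 2 * Y ^ 2 + 4 * W ^ 2 ≤ 1 - X ^ 2 := by
    have := sq_nonneg ‖b 3‖
    linarith
  have f4 : A4 ^ 2 ≤ 9 / 4 * (1 + X ^ 2) ^ 2 := by
    have : A4 ^ 2 ≤ (3 / 2 * (1 + X ^ 2)) ^ 2 := pow_le_pow_left₀ hA40 e3 2
    nlinarith
  have f5 : A5 ^ 2 ≤ 81 / 4 * (1 - X ^ 2) := by
    have h1 : A5 ^ 2 ≤ (3 * W + 6 * Y) ^ 2 := pow_le_pow_left₀ hA50 e4 2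
    have h2 : (3 * W + 6 * Y) ^ 2 ≤ 81 / 4 * (2 * Y ^ 2 + 4 * W ^ 2) := by
      nlinarith [sq_nonneg (4 * W - Y)]
    nlinarith
  have f3 : 2 * Y ^ 2 ≤ 1 - X ^ 2 := by nlinarith
  set q := X ^ 2 with hqd
  have hq0 : 0 ≤ q := by positivity
  have hq1 : q ≤ 1 := by nlinarith [sq_nonneg Y]
  have t3 : 0 ≤ t ^ 3 := by positivity
  have t4 : 0 ≤ t ^ 4 - t ^ 6 / 3 := by
    have := pow_le_pow_t ht0 ht1 (show 4 ≤ 6 by norm_num)
    have h6 : 0 ≤ t ^ 6 := by positivity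
    linarith
  have t5 : 0 ≤ t ^ 5 - 2 * (t ^ 6 / 3) := by
    have := pow_le_pow_t ht0 ht1 (show 5 ≤ 6 by norm_num)
    have h6 : 0 ≤ t ^ 6 := by positivity
    linarith
  have g3 := mul_le_mul_of_nonneg_right f3 t3
  have g4 := mul_le_mul_of_nonneg_right f4 t4
  have g5 := mul_le_mul_of_nonneg_right f5 t5
  have hbr : 0 ≤ 9 - 9 / 2 * t + 9 / 4 * (3 + q) * t ^ 2 - 81 / 4 * t ^ 3 + 27 / 2 * t ^ 4
      + 3 / 4 * (1 - q) * t ^ 4 := by
    have u1 : 0 ≤ 3 / 4 * (1 - q) * t ^ 4 :=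
      mul_nonneg (mul_nonneg (by norm_num) (by linarith)) (by positivity)
    have u2 : 0 ≤ 9 / 4 * q * t ^ 2 := by positivity
    have u4 : 0 ≤ t ^ 2 * (1 - t) := mul_nonneg (by positivity) (by linarith)
    have u5 : 0 ≤ (3 * t - 2) ^ 2 * (3 * t + 1) := by positivity
    have u6 : 0 ≤ t ^ 2 * (1 - t) * (2 - 2 * t) := mul_nonneg u4 (by linarith)
    linarith
  have hkey : 0 ≤ (1 - q) * t ^ 2 * (9 - 9 / 2 * t + 9 / 4 * (3 + q) * t ^ 2 - 81 / 4 * t ^ 3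
      + 27 / 2 * t ^ 4 + 3 / 4 * (1 - q) * t ^ 4) :=
    mul_nonneg (mul_nonneg (by linarith) (by positivity)) hbr
  have hS : 1 ^ 2 * (t ^ 0 - t ^ 6 / 3 * (0 - 3)) + 0 ^ 2 * (t ^ 1 - t ^ 6 / 3 * (1 - 3)) +
      (3 * X) ^ 2 * (t ^ 2 - t ^ 6 / 3 * (2 - 3)) + (3 * Y) ^ 2 * (t ^ 3 - t ^ 6 / 3 * (3 - 3)) +
      A4 ^ 2 * (t ^ 4 - t ^ 6 / 3 * (4 - 3)) + A5 ^ 2 * (t ^ 5 - t ^ 6 / 3 * (5 - 3))
      = 1 + t ^ 6 + 9 * q * (t ^ 2 + t ^ 6 / 3) + 9 * Y ^ 2 * t ^ 3 + A4 ^ 2 * (t ^ 4 - t ^ 6 / 3)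
        + A5 ^ 2 * (t ^ 5 - 2 * (t ^ 6 / 3)) := by
    rw [hqd]; ring
  have hT : 1 + t ^ 6 + 9 * q * (t ^ 2 + t ^ 6 / 3) + 9 * Y ^ 2 * t ^ 3
      + A4 ^ 2 * (t ^ 4 - t ^ 6 / 3) + A5 ^ 2 * (t ^ 5 - 2 * (t ^ 6 / 3))
      ≤ 1 + 9 * t ^ 2 + 9 * t ^ 4 + t ^ 6 := by
    linarith [g3, g4, g5, hkey]
  rw [← hS] at hT
  refine le_trans (le_of_eq ?_) hT
  push_cast
  ring

end upper

/-! ### From coefficients to integral means -/

section means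
variable {F : ℂ → ℂ} {b : ℕ → ℂ}

lemma norm_F {r : ℝ} (hr : 1 < r) {k : ℕ} (z : ℂ) (hz : ‖z‖ = r⁻¹) :
    ‖F z⁻¹‖ ^ (2 * k) = r ^ (2 * k) * ‖Pf F z ^ k‖ ^ 2 := by
  have hr0 : 0 < r := by linarith
  have h0 : z ≠ 0 := by
    intro h
    rw [h, norm_zero] at hz
    have := inv_pos.2 hr0
    linarith
  have h1 : Pf F z = F z⁻¹ * z := by simp [Pf, h0]
  have h2 : r ^ k ≠ 0 := (pow_pos hr0 k).ne'
  rw [h1, norm_pow, norm_mul, hz, mul_pow, inv_pow, mul_comm 2 k, pow_mul, pow_mul]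
  field_simp

lemma mean_F {r : ℝ} (hr : 1 < r) {k : ℕ} {c : ℕ → ℂ} (hc : Rep c (fun z => Pf F z ^ k)) :
    mean ((2 * k : ℕ) : ℝ) r F
      = (r ^ (2 * k) * ∑' j, ‖c j‖ ^ 2 * ((r⁻¹) ^ 2) ^ j) ^ (1 / ((2 * k : ℕ) : ℝ)) :=
  mean_eq hc hr (norm_F hr)

/-- The extremal function. -/
noncomputable def F0 (z : ℂ) : ℂ := z + z⁻¹

/-- Its coefficients. -/
def b0 : ℕ → ℂ := fun n => if n = 1 then 1 else 0

lemma hb0 : ∀ z : ℂ, 1 < ‖z‖ → HasSum (fun n : ℕ => b0 (n + 1) * (z ^ (n + 1))⁻¹) (F0 z - z) := by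
  intro z hz
  have h1 : F0 z - z = b0 (0 + 1) * (z ^ (0 + 1))⁻¹ := by simp [F0, b0]
  rw [h1]
  apply hasSum_single 0
  intro n hn
  simp [b0, hn]

lemma isSigma_F0 : IsSigma F0 := by
  refine ⟨?_, ?_, b0, hb0⟩
  · intro z hz
    have h0 : z ≠ 0 := by
      intro h
      rw [mem_ofPred_eq, h, norm_zero] at hz
      linarith
    exact (differentiableAt_id.add (differentiableAt_inv h0)).differentiableWithinAt
  · intro z hz w hw hzw
    rw [mem_ofPred_eq] at hz hw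
    have hz0 : z ≠ 0 := by intro h; rw [h, norm_zero] at hz; linarith
    have hw0 : w ≠ 0 := by intro h; rw [h, norm_zero] at hw; linarith
    have h1 : (z - w) * (z * w - 1) = 0 := by
      have h2 : z + z⁻¹ = w + w⁻¹ := hzw
      field_simp at h2
      linear_combination h2
    rcases mul_eq_zero.mp h1 with h | h
    · exact sub_eq_zero.mp h
    · exfalso
      have h3 : z * w = 1 := sub_eq_zero.mp h
      have h4 : ‖z‖ * ‖w‖ = 1 := by rw [← norm_mul, h3, norm_one]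
      nlinarith

lemma Pf_F0 (z : ℂ) : Pf F0 z = 1 + z ^ 2 := by
  by_cases h : z = 0
  · simp [Pf, h]
  · simp only [Pf, h, if_false, F0, inv_inv]
    field_simp

/-- Coefficients of `(1 + z ^ 2) ^ k`. -/
def cs (k : ℕ) (j : ℕ) : ℂ := if j % 2 = 0 then ((k.choose (j / 2) : ℕ) : ℂ) else 0

lemma cs_zero {k j : ℕ} (h : 2 * k + 1 ≤ j) : cs k j = 0 := by
  unfold cs
  split_ifs
  · rw [Nat.choose_eq_zero_of_lt (by omega)]; simp
  · rfl

lemma rep_cs1 : Rep (cs 1) (fun z => Pf F0 z ^ 1) := by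
  intro z _
  have h : Pf F0 z ^ 1 = ∑ j ∈ Finset.range 3, cs 1 j * z ^ j := by
    rw [Pf_F0]; simp [Finset.sum_range_succ, cs]
  show HasSum _ (Pf F0 z ^ 1)
  rw [h]
  apply hasSum_sum_of_ne_finset_zero
  intro j hj
  rw [cs_zero (by simpa using hj), zero_mul]

lemma rep_cs2 : Rep (cs 2) (fun z => Pf F0 z ^ 2) := by
  intro z _
  have h : Pf F0 z ^ 2 = ∑ j ∈ Finset.range 5, cs 2 j * z ^ j := by
    rw [Pf_F0]; simp [Finset.sum_range_succ, cs]; ring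
  show HasSum _ (Pf F0 z ^ 2)
  rw [h]
  apply hasSum_sum_of_ne_finset_zero
  intro j hj
  rw [cs_zero (by simpa using hj), zero_mul]

lemma rep_cs3 : Rep (cs 3) (fun z => Pf F0 z ^ 3) := by
  intro z _
  have h : Pf F0 z ^ 3 = ∑ j ∈ Finset.range 7, cs 3 j * z ^ j := by
    rw [Pf_F0]; simp [Finset.sum_range_succ, cs, Nat.choose]; ring
  show HasSum _ (Pf F0 z ^ 3)
  rw [h]
  apply hasSum_sum_of_ne_finset_zero
  intro j hj
  rw [cs_zero (by simpa using hj), zero_mul]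

lemma tsum_cs1 (t : ℝ) : ∑' j, ‖cs 1 j‖ ^ 2 * t ^ j = 1 + t ^ 2 := by
  rw [tsum_eq_sum (s := Finset.range 3)]
  · simp [Finset.sum_range_succ, cs]
  · intro j hj
    rw [cs_zero (by simpa using hj)]; simp

lemma tsum_cs2 (t : ℝ) : ∑' j, ‖cs 2 j‖ ^ 2 * t ^ j = 1 + 4 * t ^ 2 + t ^ 4 := by
  rw [tsum_eq_sum (s := Finset.range 5)]
  · simp [Finset.sum_range_succ, cs]; norm_num
  · intro j hj
    rw [cs_zero (by simpa using hj)]; simp

lemma tsum_cs3 (t : ℝ) : ∑' j, ‖cs 3 j‖ ^ 2 * t ^ j = 1 + 9 * t ^ 2 + 9 * t ^ 4 + t ^ 6 := by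
  rw [tsum_eq_sum (s := Finset.range 7)]
  · simp [Finset.sum_range_succ, cs, Nat.choose]; norm_num
  · intro j hj
    rw [cs_zero (by simpa using hj)]; simp

lemma mean_le {r : ℝ} (hr : 1 < r) {k : ℕ} {c : ℕ → ℂ}
    (hc : Rep c (fun z => Pf F z ^ k)) {B : ℝ}
    (hB : ∑' j, ‖c j‖ ^ 2 * ((r⁻¹) ^ 2) ^ j ≤ B) :
    mean ((2 * k : ℕ) : ℝ) r F ≤ (r ^ (2 * k) * B) ^ (1 / ((2 * k : ℕ) : ℝ)) := by
  rw [mean_F hr hc]
  apply Real.rpow_le_rpow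
  · apply mul_nonneg (by positivity)
    exact tsum_nonneg fun j => by positivity
  · exact mul_le_mul_of_nonneg_left hB (by positivity)
  · positivity

end means

/-! ### The derivative -/

section derivative
variable {F : ℂ → ℂ} {b : ℕ → ℂ}

lemma deriv_F (hb : ∀ z : ℂ, 1 < ‖z‖ → HasSum (fun n : ℕ => b (n + 1) * (z ^ (n + 1))⁻¹) (F z - z))
    {z : ℂ} (hz : z ∈ Dp) : deriv F z⁻¹ = -(z * deriv (Pf F) z - (1 : ℕ) * Pf F z) := by
  have h0 : z ≠ 0 := hz.2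
  have hPd : HasDerivAt (Pf F) (deriv (Pf F) z) (z⁻¹)⁻¹ := by
    rw [inv_inv]
    exact ((rep_Pf hb).diff.differentiableAt (isOpen_ball.mem_nhds hz.1)).hasDerivAt
  have h1 := (hPd.comp z⁻¹ (hasDerivAt_inv (inv_ne_zero h0))).mul (hasDerivAt_id z⁻¹)
  have h2 : F =ᶠ[𝓝 z⁻¹] fun w => (Pf F ∘ fun w => w⁻¹) w * id w := by
    have hopen : IsOpen {w : ℂ | 1 < ‖w‖} := isOpen_lt continuous_const continuous_norm
    filter_upwards [hopen.mem_nhds (inv_mem hz)] with w hw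
    have hw0 : w ≠ 0 := by
      intro h
      rw [h, norm_zero] at hw
      linarith
    simp only [Function.comp, id, Pf, inv_eq_zero, hw0, if_false, inv_inv]
    field_simp
  rw [h2.deriv_eq]
  have h3 := h1.deriv
  have h4 : (fun w => (Pf F ∘ fun w => w⁻¹) w * id w) = (Pf F ∘ Inv.inv) * id := rfl
  rw [h4, h3]
  simp only [Function.comp, id, inv_inv]
  field_simp
  ring

lemma boundD (hd : DifferentiableOn ℂ F {z | 1 < ‖z‖}) (hi : InjOn F {z | 1 < ‖z‖})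
    (hb : ∀ z : ℂ, 1 < ‖z‖ → HasSum (fun n : ℕ => b (n + 1) * (z ^ (n + 1))⁻¹) (F z - z))
    {t : ℝ} (ht0 : 0 ≤ t) (ht1 : t ≤ 1 / 2) :
    ∑' j : ℕ, ‖((j : ℂ) - (1 : ℕ)) * coef b j‖ ^ 2 * t ^ j ≤ 1 + t ^ 2 := by
  apply Real.tsum_le_of_sum_range_le
  · intro n; positivity
  · intro N
    have h1 : ∑ j ∈ Finset.range N, ‖((j : ℂ) - (1 : ℕ)) * coef b j‖ ^ 2 * t ^ j
        ≤ ∑ j ∈ Finset.range (N + 1), ‖((j : ℂ) - (1 : ℕ)) * coef b j‖ ^ 2 * t ^ j := by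
      apply Finset.sum_le_sum_of_subset_of_nonneg
      · exact Finset.range_mono (by omega)
      · intro i _ _; positivity
    have h2 : ∀ j ∈ Finset.range (N + 1), ‖((j : ℂ) - (1 : ℕ)) * coef b j‖ ^ 2 * t ^ j
        ≤ t ^ 2 * (((j : ℝ) - (1 : ℕ)) * ‖coef b j‖ ^ 2) + if j = 0 then 1 + t ^ 2 else 0 := by
      intro j _
      rcases j with _ | _ | n
      · simp [coef]
      · simp [coef]
      · have e1 : ‖(((n + 1 + 1 : ℕ) : ℂ) - (1 : ℕ)) * coef b (n + 1 + 1)‖ ^ 2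
            = ((n : ℝ) + 1) ^ 2 * ‖coef b (n + 1 + 1)‖ ^ 2 := by
          rw [norm_mul, mul_pow]
          congr 2
          have : ((n + 1 + 1 : ℕ) : ℂ) - (1 : ℕ) = (((n : ℝ) + 1 : ℝ) : ℂ) := by
            push_cast; ring
          rw [this, Complex.norm_real, Real.norm_of_nonneg (by positivity)]
        have e2 : ((n : ℝ) + 1) * t ^ n ≤ 1 := by
          have g1 : t ^ n ≤ (1 / 2) ^ n := pow_le_pow_left₀ ht0 ht1 n
          have g2 : ((n : ℝ) + 1) ≤ 2 ^ n := by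
            have : n + 1 ≤ 2 ^ n := Nat.lt_two_pow_self
            exact_mod_cast this
          calc ((n : ℝ) + 1) * t ^ n ≤ 2 ^ n * (1 / 2) ^ n := by gcongr
            _ = 1 := by rw [← mul_pow]; norm_num
        rw [e1, if_neg (by omega)]
        have e3 : (((n + 1 + 1 : ℕ) : ℝ) - (1 : ℕ)) = (n : ℝ) + 1 := by push_cast; ring
        rw [e3]
        have e4 : 0 ≤ ((n : ℝ) + 1) * ‖coef b (n + 1 + 1)‖ ^ 2 * t ^ 2 := by positivity
        calc ((n : ℝ) + 1) ^ 2 * ‖coef b (n + 1 + 1)‖ ^ 2 * t ^ (n + 1 + 1)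
            = (((n : ℝ) + 1) * ‖coef b (n + 1 + 1)‖ ^ 2 * t ^ 2) * (((n : ℝ) + 1) * t ^ n) := by
              ring
          _ ≤ (((n : ℝ) + 1) * ‖coef b (n + 1 + 1)‖ ^ 2 * t ^ 2) * 1 :=
              mul_le_mul_of_nonneg_left e2 e4
          _ = t ^ 2 * (((n : ℝ) + 1) * ‖coef b (n + 1 + 1)‖ ^ 2) + 0 := by ring
    have h3 := Finset.sum_le_sum h2
    rw [Finset.sum_add_distrib, ← Finset.mul_sum, Finset.sum_ite_eq' (Finset.range (N + 1)) 0,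
      if_pos (by simp)] at h3
    have h4 := area_fin hd hi hb 1 (rep1 hb) (N + 1) (by omega)
    have h5 := mul_nonpos_of_nonneg_of_nonpos (sq_nonneg t) h4
    linarith

lemma tsumD (t : ℝ) : ∑' j : ℕ, ‖((j : ℂ) - (1 : ℕ)) * coef b0 j‖ ^ 2 * t ^ j = 1 + t ^ 2 := by
  rw [tsum_eq_sum (s := Finset.range 3)]
  · simp [Finset.sum_range_succ, coef, b0]
    norm_num
  · intro j hj
    have h1 : 3 ≤ j := by simpa using hj
    obtain ⟨n, rfl⟩ := Nat.exists_eq_add_of_le h1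
    have : coef b0 (3 + n) = 0 := by
      rw [show 3 + n = (n + 1) + 2 by omega]
      simp [coef, b0]
    rw [this]; simp

lemma mean_deriv (hb : ∀ z : ℂ, 1 < ‖z‖ →
      HasSum (fun n : ℕ => b (n + 1) * (z ^ (n + 1))⁻¹) (F z - z)) {r : ℝ} (hr : 1 < r) :
    mean ((2 * 1 : ℕ) : ℝ) r (deriv F)
      = (1 * ∑' j : ℕ, ‖((j : ℂ) - (1 : ℕ)) * coef b j‖ ^ 2 * ((r⁻¹) ^ 2) ^ j)
          ^ (1 / ((2 * 1 : ℕ) : ℝ)) := by
  have hr0 : 0 < r := by linarith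
  refine mean_eq (Q := fun z => z * deriv (Pf F) z - (1 : ℕ) * Pf F z)
    (hasSum_Q (rep_Pf hb) 1) hr ?_
  intro z hz
  have hz1 : z ∈ Dp := by
    refine ⟨?_, ?_⟩
    · rw [mem_ball_zero_iff, hz]; exact inv_lt_one_of_one_lt₀ hr
    · intro h
      rw [mem_singleton_iff] at h
      rw [h, norm_zero] at hz
      have := inv_pos.2 hr0
      linarith
  rw [deriv_F hb hz1, norm_neg, mul_one, one_mul]

end derivative

/-- **Result.** For every `r > 1` the suprema of `I_2(r, F)`, `I_4(r, F)` and `I_6(r, F)` over the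
class `Σ` are maxima, with the stated exact values; and for every `r ≥ √2` the supremum of
`I_2(r, F')` over `Σ` is a maximum, with the stated value. -/
theorem result :
    (∀ r : ℝ, 1 < r →
      IsGreatest {x : ℝ | ∃ F, IsSigma F ∧ x = mean 2 r F}
        ((r ^ 2 + (r ^ 2)⁻¹) ^ (1 / 2 : ℝ)) ∧
      IsGreatest {x : ℝ | ∃ F, IsSigma F ∧ x = mean 4 r F}
        ((r ^ 4 + 4 + (r ^ 4)⁻¹) ^ (1 / 4 : ℝ)) ∧
      IsGreatest {x : ℝ | ∃ F, IsSigma F ∧ x = mean 6 r F}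
        ((r ^ 6 + 9 * r ^ 2 + 9 * (r ^ 2)⁻¹ + (r ^ 6)⁻¹) ^ (1 / 6 : ℝ))) ∧
    (∀ r : ℝ, √2 ≤ r →
      IsGreatest {x : ℝ | ∃ F, IsSigma F ∧ x = mean 2 r (deriv F)}
        ((1 + (r ^ 4)⁻¹) ^ (1 / 2 : ℝ))) := by
  refine ⟨fun r hr => ?_, fun r hr => ?_⟩
  · have hr0 : 0 < r := by linarith
    set t : ℝ := (r⁻¹) ^ 2 with ht
    have ht0 : 0 ≤ t := by positivity
    have ht1 : t ≤ 1 := by
      have h1 : r⁻¹ ≤ 1 := (inv_lt_one_of_one_lt₀ hr).le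
      have h2 : 0 ≤ r⁻¹ := by positivity
      exact pow_le_one₀ h2 h1
    have v1 : r ^ (2 * 1) * (1 + t ^ 2) = r ^ 2 + (r ^ 2)⁻¹ := by
      rw [ht]; field_simp
    have v2 : r ^ (2 * 2) * (1 + 4 * t ^ 2 + t ^ 4) = r ^ 4 + 4 + (r ^ 4)⁻¹ := by
      rw [ht]; field_simp
    have v3 : r ^ (2 * 3) * (1 + 9 * t ^ 2 + 9 * t ^ 4 + t ^ 6)
        = r ^ 6 + 9 * r ^ 2 + 9 * (r ^ 2)⁻¹ + (r ^ 6)⁻¹ := by
      rw [ht]; field_simp
    have e1 : ((2 * 1 : ℕ) : ℝ) = 2 := by norm_num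
    have e2 : ((2 * 2 : ℕ) : ℝ) = 4 := by norm_num
    have e3 : ((2 * 3 : ℕ) : ℝ) = 6 := by norm_num
    refine ⟨⟨⟨F0, isSigma_F0, ?_⟩, ?_⟩, ⟨⟨F0, isSigma_F0, ?_⟩, ?_⟩, ⟨⟨F0, isSigma_F0, ?_⟩, ?_⟩⟩
    · have h := mean_F hr rep_cs1
      rw [tsum_cs1, e1, v1] at h
      exact h.symm
    · rintro x ⟨F, ⟨hd, hi, b, hb⟩, rfl⟩
      have h := mean_le hr (rep1 hb) (bound1 hd hi hb ht0 ht1)
      rw [e1, v1] at h
      exact h
    · have h := mean_F hr rep_cs2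
      rw [tsum_cs2, e2, v2] at h
      exact h.symm
    · rintro x ⟨F, ⟨hd, hi, b, hb⟩, rfl⟩
      have h := mean_le hr (rep2 hb) (bound2 hd hi hb ht0 ht1)
      rw [e2, v2] at h
      exact h
    · have h := mean_F hr rep_cs3
      rw [tsum_cs3, e3, v3] at h
      exact h.symm
    · rintro x ⟨F, ⟨hd, hi, b, hb⟩, rfl⟩
      have h := mean_le hr (rep3 hb) (bound3 hd hi hb ht0 ht1)
      rw [e3, v3] at h
      exact h
  · have hs2 : √2 * √2 = 2 := Real.mul_self_sqrt (by norm_num)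
    have hs1 : 1 < √2 := by
      have : (1:ℝ) < √2 := by
        rw [Real.lt_sqrt (by norm_num)]; norm_num
      exact this
    have hr1 : 1 < r := by linarith
    have hr0 : 0 < r := by linarith
    set t : ℝ := (r⁻¹) ^ 2 with ht
    have ht0 : 0 ≤ t := by positivity
    have hr2 : 2 ≤ r ^ 2 := by nlinarith
    have ht1 : t ≤ 1 / 2 := by
      rw [ht, inv_pow, one_div]
      exact inv_anti₀ (by norm_num) hr2
    have v1 : 1 * (1 + t ^ 2) = 1 + (r ^ 4)⁻¹ := by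
      rw [ht]; field_simp
    have e1 : ((2 * 1 : ℕ) : ℝ) = 2 := by norm_num
    refine ⟨⟨F0, isSigma_F0, ?_⟩, ?_⟩
    · have h := mean_deriv hb0 hr1
      rw [tsumD, e1, v1] at h
      exact h.symm
    · rintro x ⟨F, ⟨hd, hi, b, hb⟩, rfl⟩
      have h := mean_deriv hb hr1
      rw [e1] at h
      rw [h, ← v1]
      apply Real.rpow_le_rpow
      · apply mul_nonneg (by norm_num)
        exact tsum_nonneg fun j => by positivity
      · exact mul_le_mul_of_nonneg_left (boundD hd hi hb ht0 ht1) (by norm_num)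
      · positivity

end Pool.Agent.Results.MP_56f757_an.SigmaMeans
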